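import Pool.Agent.Helper86.GT.Gap

/-!
# The escaping region with explicit constants
-/

set_option autoImplicit false

namespace Pool.Agent.Helper52.DV

open MvPolynomial Filter Topology
open Pool.Agent.Helper86.MQ (pm)
open Pool.Agent.Helper86.RR (eval_ne_zero eval_le finite_of_shift_set)
open Pool.Agent.Helper26.GT (wd ca)
open Pool.Agent.Helper86.GT (Es eval_lower eval_bind_iterate)

variable {K : Type*} [Field K] {m d e : ℕ}

/-- Finiteness of the return sets of an orbit which meets the escaping region. -/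
theorem esc_finite (v : AbsoluteValue K ℝ) (hd : 2 ≤ d) (he : e < d)
    {Φ : Fin (m + 1) → MvPolynomial (Fin (m + 1)) K} (deg : ∀ i, (Φ i).totalDegree ≤ wd d e i)
    (top : ca d Φ ≠ 0) {C lam R₀ : ℝ} (hC1 : 1 ≤ C)
    (hCi : ∀ i, ∑ s ∈ (Φ i).support, v (coeff s (Φ i)) ≤ C)
    (hlam : 1 + 2 * C / v (ca d Φ) ≤ lam)
    (hR₀ : lam + 4 / v (ca d Φ) + 2 * lam * C / v (ca d Φ) ≤ R₀)
    (x : Fin (m + 1) → K) (hex : ∃ n, Es v lam R₀ ((pm Φ)^[n] x))
    (F : MvPolynomial (Fin (m + 1)) K) (k : ℕ)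
    (hk : coeff (Finsupp.single (Fin.last m) (((fun G => bind₁ Φ G)^[k] F).totalDegree))
        ((fun G => bind₁ Φ G)^[k] F) ≠ 0) : {n | eval ((pm Φ)^[n] x) F = 0}.Finite := by
  classical
  set y : ℕ → Fin (m + 1) → K := fun n => (pm Φ)^[n] x with hy
  have hy1 : ∀ n i, y (n + 1) i = eval (y n) (Φ i) := by
    intro n i
    simp only [hy]
    rw [Function.iterate_succ_apply', pm]
  have hC0 : 0 < C := zero_lt_one.trans_le hC1
  have hdL : (Φ (Fin.last m)).totalDegree ≤ d := by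
    have h1 := deg (Fin.last m)
    rwa [wd, if_pos rfl] at h1
  have hdi : ∀ i : Fin m, (Φ i.castSucc).totalDegree ≤ e := by
    intro i
    have h1 := deg i.castSucc
    rwa [wd, if_neg (Fin.castSucc_lt_last i).ne] at h1
  have hold : ∀ n (i : Fin m) (R : ℝ), 1 ≤ R → (∀ j, v (y n j) ≤ R) →
      v (y (n + 1) i.castSucc) ≤ C * R ^ e := by
    intro n i R hR hyR
    rw [hy1]
    refine (eval_le v (hdi i) _ R hR hyR).trans ?_
    exact mul_le_mul_of_nonneg_right (hCi _) (by positivity)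
  set α : ℝ := v (ca d Φ) with hα
  have hα0 : 0 < α := v.pos top
  have hCα : 0 ≤ 2 * C / α := by positivity
  have hlam1 : 1 ≤ lam := by linarith
  have hlam0 : 0 < lam := zero_lt_one.trans_le hlam1
  have hlamC : C / lam ≤ α / 2 := by
    rw [div_le_iff₀ hlam0]
    have h1 : α / 2 * (1 + 2 * C / α) = α / 2 + C := by field_simp
    have h2 : α / 2 * (1 + 2 * C / α) ≤ α / 2 * lam :=
      mul_le_mul_of_nonneg_left hlam (by positivity)
    linarith
  have hp1 : 0 ≤ 4 / α := by positivity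
  have hp2 : 0 ≤ 2 * lam * C / α := by positivity
  have hR₀lam : lam ≤ R₀ := by linarith
  have hR₀1 : 1 ≤ R₀ := hlam1.trans hR₀lam
  -- the lower bound in the escaping region
  have hlow : ∀ n, Es v lam R₀ (y n) →
      α / 2 * v (y n (Fin.last m)) ^ d ≤ v (y (n + 1) (Fin.last m)) := by
    intro n hE
    set ρ := v (y n (Fin.last m)) with hρ
    have hρ1 : 1 ≤ ρ := hR₀1.trans hE.1
    have hρ0 : 0 < ρ := zero_lt_one.trans_le hρ1
    have h1 := eval_lower v (y n) (ρ / lam) ρ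
      ((one_le_div hlam0).2 (hR₀lam.trans hE.1)) (div_le_self hρ0.le hlam1) rfl
      (fun i => by rw [le_div_iff₀ hlam0, mul_comm]; exact hE.2 i) (Φ (Fin.last m)) d hdL
    rw [← hy1] at h1
    have h2 : (∑ s ∈ (Φ (Fin.last m)).support, v (coeff s (Φ (Fin.last m)))) *
        (ρ / lam * ρ ^ d) ≤ ρ * (α / 2 * ρ ^ d) := by
      calc (∑ s ∈ (Φ (Fin.last m)).support, v (coeff s (Φ (Fin.last m)))) * (ρ / lam * ρ ^ d)
          ≤ C * (ρ / lam * ρ ^ d) := mul_le_mul_of_nonneg_right (hCi _) (by positivity)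
        _ = C / lam * (ρ * ρ ^ d) := by ring
        _ ≤ α / 2 * (ρ * ρ ^ d) := mul_le_mul_of_nonneg_right hlamC (by positivity)
        _ = ρ * (α / 2 * ρ ^ d) := by ring
    have h3 : ρ * (α * ρ ^ d) ≤ ρ * v (y (n + 1) (Fin.last m)) + ρ * (α / 2 * ρ ^ d) :=
      h1.trans (add_le_add le_rfl h2)
    have h4 : ρ * (α / 2 * ρ ^ d) ≤ ρ * v (y (n + 1) (Fin.last m)) := by
      have h5 : ρ * (α * ρ ^ d) = ρ * (α / 2 * ρ ^ d) + ρ * (α / 2 * ρ ^ d) := by ring
      linarith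
    exact le_of_mul_le_mul_left h4 hρ0
  have hbd : ∀ n, Es v lam R₀ (y n) → ∀ j, v (y n j) ≤ v (y n (Fin.last m)) := by
    intro n hE j
    refine Fin.lastCases le_rfl (fun i => ?_) j
    refine le_trans ?_ (hE.2 i)
    exact le_mul_of_one_le_left (v.nonneg _) hlam1
  have hstep : ∀ n, Es v lam R₀ (y n) → Es v lam R₀ (y (n + 1)) ∧
      2 * v (y n (Fin.last m)) ≤ v (y (n + 1) (Fin.last m)) := by
    intro n hE
    have hb := hlow n hE
    set ρ := v (y n (Fin.last m)) with hρ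
    have hρ1 : 1 ≤ ρ := hR₀1.trans hE.1
    have hρ0 : 0 < ρ := zero_lt_one.trans_le hρ1
    have h1 : 2 * ρ ≤ v (y (n + 1) (Fin.last m)) := by
      refine le_trans ?_ hb
      have h2 : 4 / α ≤ ρ := by linarith [hE.1]
      rw [div_le_iff₀ hα0] at h2
      have h3 : ρ ^ 2 ≤ ρ ^ d := pow_le_pow_right₀ hρ1 hd
      calc 2 * ρ = 4 / 2 * ρ := by norm_num
        _ ≤ (ρ * α) / 2 * ρ := by
            refine mul_le_mul_of_nonneg_right ?_ hρ0.le
            linarith
        _ = α / 2 * ρ ^ 2 := by ring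
        _ ≤ α / 2 * ρ ^ d := mul_le_mul_of_nonneg_left h3 (by positivity)
    refine ⟨⟨by linarith [hE.1], fun i => ?_⟩, h1⟩
    have h2 := hold n i ρ hρ1 (hbd n hE)
    refine le_trans (mul_le_mul_of_nonneg_left h2 hlam0.le) (le_trans ?_ hb)
    have h3 : 2 * lam * C / α ≤ ρ := by linarith [hE.1]
    rw [div_le_iff₀ hα0] at h3
    have h4 : ρ ^ (e + 1) ≤ ρ ^ d := pow_le_pow_right₀ hρ1 he
    calc lam * (C * ρ ^ e) = (2 * lam * C) / 2 * ρ ^ e := by ring
      _ ≤ (ρ * α) / 2 * ρ ^ e := by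
          refine mul_le_mul_of_nonneg_right ?_ (by positivity)
          linarith
      _ = α / 2 * ρ ^ (e + 1) := by ring
      _ ≤ α / 2 * ρ ^ d := mul_le_mul_of_nonneg_left h4 (by positivity)
  obtain ⟨n₀, hn₀⟩ := hex
  have hall : ∀ k, Es v lam R₀ (y (n₀ + k)) ∧ (2 : ℝ) ^ k ≤ v (y (n₀ + k) (Fin.last m)) := by
    intro k
    induction k with
    | zero => exact ⟨hn₀, by simpa using hR₀1.trans hn₀.1⟩
    | succ k ih =>
      have h1 := hstep _ ih.1
      refine ⟨h1.1, ?_⟩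
      rw [pow_succ, ← add_assoc]
      linarith [h1.2, ih.2]
  set G := (fun G => bind₁ Φ G)^[k] F with hG
  set cG := v (coeff (Finsupp.single (Fin.last m) G.totalDegree) G) with hcG
  have hcG0 : 0 < cG := v.pos hk
  set S : ℝ := ∑ s ∈ G.support, v (coeff s G) with hS
  have hS0 : 0 ≤ S := Finset.sum_nonneg fun s _ => v.nonneg _
  obtain ⟨N, hN⟩ : ∃ N : ℕ, ∀ k, N ≤ k → 2 * (S * C) / (cG * α) + 1 ≤ (2 : ℝ) ^ k :=
    ((tendsto_pow_atTop_atTop_of_one_lt
      (by norm_num : (1 : ℝ) < 2)).eventually_ge_atTop _).exists_forall_of_atTop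
  have hfin : ∀ k, N ≤ k → eval (y (n₀ + k + 1)) G ≠ 0 := by
    intro k hk
    obtain ⟨hE, h2k⟩ := hall k
    have hb := hlow _ hE
    obtain ⟨hE', -⟩ := hstep _ hE
    have hold' := fun i => hold (n₀ + k) i _ (hR₀1.trans hE.1) (hbd _ hE)
    set ρ := v (y (n₀ + k) (Fin.last m)) with hρ
    have hρ1 : 1 ≤ ρ := hR₀1.trans hE.1
    have hρ0 : 0 < ρ := zero_lt_one.trans_le hρ1
    have h1 : 1 ≤ C * ρ ^ e := one_le_mul_of_one_le_of_one_le hC1 (one_le_pow₀ hρ1)
    have h4 : ρ ^ (e + 1) ≤ ρ ^ d := pow_le_pow_right₀ hρ1 he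
    have h5 : 2 * (S * C) / (cG * α) + 1 ≤ ρ := (hN k hk).trans h2k
    have h6 : 2 * (S * C) < ρ * (cG * α) := by
      rw [← div_lt_iff₀ (by positivity)]
      linarith
    have h7 : S * (C * ρ ^ e) < cG * v (y (n₀ + k + 1) (Fin.last m)) := by
      calc S * (C * ρ ^ e) = (2 * (S * C)) * (ρ ^ e / 2) := by ring
        _ < (ρ * (cG * α)) * (ρ ^ e / 2) := mul_lt_mul_of_pos_right h6 (by positivity)
        _ = cG * (α / 2 * ρ ^ (e + 1)) := by ring
        _ ≤ cG * (α / 2 * ρ ^ d) := by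
            refine mul_le_mul_of_nonneg_left ?_ hcG0.le
            exact mul_le_mul_of_nonneg_left h4 (by positivity)
        _ ≤ cG * v (y (n₀ + k + 1) (Fin.last m)) := mul_le_mul_of_nonneg_left hb hcG0.le
    refine eval_ne_zero v (y (n₀ + k + 1)) (C * ρ ^ e) _ h1 ?_ rfl (fun i => hold' i) G h7
    have h3 : 2 * lam * C / α ≤ ρ := by linarith [hE.1]
    rw [div_le_iff₀ hα0] at h3
    refine le_trans ?_ hb
    calc C * ρ ^ e ≤ lam * (C * ρ ^ e) := le_mul_of_one_le_left (by positivity) hlam1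
      _ = (2 * lam * C) / 2 * ρ ^ e := by ring
      _ ≤ (ρ * α) / 2 * ρ ^ e := by
          refine mul_le_mul_of_nonneg_right ?_ (by positivity)
          linarith
      _ = α / 2 * ρ ^ (e + 1) := by ring
      _ ≤ α / 2 * ρ ^ d := mul_le_mul_of_nonneg_left h4 (by positivity)
  refine finite_of_shift_set k
    (((Finset.range (n₀ + N + 1)).finite_toSet).subset fun n hn => ?_)
  by_contra h1
  have h2 : n₀ + N + 1 ≤ n := by
    by_contra h3
    exact h1 (by simpa using h3)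
  obtain ⟨j, rfl⟩ : ∃ j, n = n₀ + (N + j) + 1 := ⟨n - (n₀ + N + 1), by omega⟩
  refine hfin (N + j) (by omega) ?_
  rw [hG, eval_bind_iterate, hy, ← Function.iterate_add_apply, add_comm k]
  exact hn

end Pool.Agent.Helper52.DV
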