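import Pool.Agent.Helper26.DV.Defs
import Pool.Agent.Helper26.MQ.Bounds2

/-!
# Random maps with an arbitrary degree vector whose maximum is attained once: the counts
-/

set_option autoImplicit false

namespace Pool.Agent.Helper52.DV

open Finset MvPolynomial Pool.Agent.Helper86.MQ Pool.Agent.Helper26.DV
open Pool.Agent.Helper26.MQ (trap_count card_seq_le double scaling_card card_span interp_affine
  interp_form)

/-- The number of pairs (parameter, starting point of an infinite chain in `S`). -/
theorem chain_count {F X W C : Type*} [Field F] [AddCommGroup W] [Module F W]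
    [FiniteDimensional F W] [DecidableEq X] [Fintype C]
    (rel : C → X → X → Prop) (ι : X → W) (S : Finset X) (M : ℕ) (hM : 0 < M)
    (hind : ∀ (r : ℕ) (x : Fin r → X), LinearIndependent F (fun k => ι (x k)) →
      ∀ y : Fin r → X,
        {c : C | ∀ k, rel c (x k) (y k)}.ncard * M ^ r ≤ Fintype.card C)
    (b : ℕ → ℕ)
    (hb : ∀ (r : ℕ) (x : Fin r → X), (∀ k, x k ∈ S) → LinearIndependent F (fun k => ι (x k)) →
      {z | z ∈ S ∧ ι z ∈ Submodule.span F (Set.range fun k => ι (x k))}.ncard ≤ b r) :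
    ({cx : C × X | ι cx.2 ≠ 0 ∧ ∃ s : ℕ → X, s 0 = cx.2 ∧ (∀ k, s k ∈ S) ∧
        ∀ k, rel cx.1 (s k) (s (k + 1))}.ncard : ℝ) ≤
      (Fintype.card C : ℝ) * ∑ r ∈ Finset.Icc 1 (Module.finrank F W),
        (S.card : ℝ) ^ r * b r / (M : ℝ) ^ r := by
  classical
  set R := Module.finrank F W with hR
  set Q : (r : ℕ) → Finset (Fin (r + 1) → X) := fun r =>
    (Fintype.piFinset fun _ : Fin (r + 1) => S).filter fun s =>
      LinearIndependent F (fun k : Fin r => ι (s k.castSucc)) ∧
      ι (s (Fin.last r)) ∈ Submodule.span F (Set.range fun k : Fin r => ι (s k.castSucc)) with hQ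
  have hQmem : ∀ r s, s ∈ Q r ↔ (∀ k, s k ∈ S) ∧
      LinearIndependent F (fun k : Fin r => ι (s k.castSucc)) ∧
      ι (s (Fin.last r)) ∈ Submodule.span F (Set.range fun k : Fin r => ι (s k.castSucc)) := by
    intro r s
    rw [hQ, Finset.mem_filter, Fintype.mem_piFinset]
  set Cs : (r : ℕ) → (Fin (r + 1) → X) → Finset C := fun r s =>
    univ.filter fun c => ∀ k : Fin r, rel c (s k.castSucc) (s k.succ) with hCs
  have hX : (0 : ℝ) < (M : ℝ) := by
    exact_mod_cast hM
  have hsub : {cx : C × X | ι cx.2 ≠ 0 ∧ ∃ s : ℕ → X, s 0 = cx.2 ∧ (∀ k, s k ∈ S) ∧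
        ∀ k, rel cx.1 (s k) (s (k + 1))} ⊆
      (((Finset.Icc 1 R).biUnion fun r => (Q r).biUnion fun s =>
        (Cs r s).image fun c => (c, s 0) : Finset (C × X)) : Set (C × X)) := by
    rintro ⟨c, x⟩ ⟨hx0, s, hs0, hsS, hsr⟩
    simp only at hx0 hs0 hsr
    -- dependence after `R + 1` steps
    have hdep : ∃ r, ¬ LinearIndependent F (fun k : Fin (r + 1) => ι (s k)) := by
      refine ⟨R, fun h => ?_⟩
      have h1 := h.fintype_card_le_finrank
      simp [← hR] at h1
    set r := Nat.find hdep with hr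
    have hr1 := Nat.find_spec hdep
    rw [← hr] at hr1
    have hr0 : r ≠ 0 := by
      intro h0
      rw [h0] at hr1
      apply hr1
      rw [linearIndependent_finSucc']
      refine ⟨linearIndependent_empty_type, ?_⟩
      intro hmem
      have he : (Set.range fun k : Fin 0 => ι (s k)) = ∅ := Set.range_eq_empty _
      have hmem' : ι (s 0) ∈ Submodule.span F (Set.range fun k : Fin 0 => ι (s k)) := hmem
      rw [he, Submodule.span_empty, Submodule.mem_bot] at hmem'
      exact hx0 (by rw [← hs0]; exact hmem')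
    have hrlt : LinearIndependent F (fun k : Fin r => ι (s k)) := by
      have h2 := Nat.find_min hdep (m := r - 1) (by omega)
      rw [not_not] at h2
      have e : r - 1 + 1 = r := by omega
      rw [← e]
      exact h2
    have hrR : r ≤ R := by
      have h1 := hrlt.fintype_card_le_finrank
      simpa using h1
    have hlast : ι (s r) ∈ Submodule.span F (Set.range fun k : Fin r => ι (s k)) := by
      by_contra hcon
      apply hr1
      rw [linearIndependent_finSucc']
      refine ⟨?_, ?_⟩
      · exact hrlt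
      · exact hcon
    simp only [Finset.coe_biUnion, Set.mem_iUnion, Finset.mem_coe, Finset.mem_image,
      Finset.mem_Icc, Prod.mk.injEq]
    refine ⟨r, ⟨by omega, hrR⟩, fun k => s k, ?_, c, ?_, rfl, hs0⟩
    · rw [hQmem]
      exact ⟨fun k => hsS _, hrlt, hlast⟩
    · rw [hCs]
      simp only [Finset.mem_filter, Finset.mem_univ, true_and]
      intro k
      simp only [Fin.val_castSucc, Fin.val_succ]
      exact hsr k
  have h1 : ({cx : C × X | ι cx.2 ≠ 0 ∧ ∃ s : ℕ → X, s 0 = cx.2 ∧ (∀ k, s k ∈ S) ∧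
        ∀ k, rel cx.1 (s k) (s (k + 1))}.ncard : ℝ) ≤
      ∑ r ∈ Finset.Icc 1 R, ∑ s ∈ Q r, ((Cs r s).card : ℝ) := by
    have h2 := Set.ncard_le_ncard hsub (Finset.finite_toSet _)
    rw [Set.ncard_coe_finset] at h2
    have h3 : ((Finset.Icc 1 R).biUnion fun r => (Q r).biUnion fun s =>
        (Cs r s).image fun c => (c, s 0)).card ≤
        ∑ r ∈ Finset.Icc 1 R, ∑ s ∈ Q r, (Cs r s).card := by
      refine Finset.card_biUnion_le.trans (Finset.sum_le_sum fun r _ => ?_)
      refine Finset.card_biUnion_le.trans (Finset.sum_le_sum fun s _ => ?_)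
      exact Finset.card_image_le
    exact_mod_cast h2.trans h3
  refine h1.trans ?_
  rw [Finset.mul_sum]
  refine Finset.sum_le_sum fun r _ => ?_
  have h4 : ∀ s ∈ Q r, ((Cs r s).card : ℝ) ≤ (Fintype.card C : ℝ) / (M : ℝ) ^ r := by
    intro s hs
    rw [hQmem] at hs
    have h5 := hind r (fun k => s k.castSucc) hs.2.1 (fun k => s k.succ)
    have e : {c : C | ∀ k : Fin r, rel c (s k.castSucc) (s k.succ)} =
        ((Cs r s : Finset C) : Set C) := by
      ext c
      simp [hCs]
    rw [e, Set.ncard_coe_finset] at h5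
    rw [le_div_iff₀ (by positivity)]
    exact_mod_cast h5
  have h6 : ((Q r).card : ℝ) ≤ (S.card : ℝ) ^ r * b r := by
    have h7 := card_seq_le (F := F) ι S r (b r) (hb r)
    have e : {s : Fin (r + 1) → X | (∀ k, s k ∈ S) ∧
        LinearIndependent F (fun k : Fin r => ι (s k.castSucc)) ∧
        ι (s (Fin.last r)) ∈ Submodule.span F (Set.range fun k : Fin r => ι (s k.castSucc))} =
        ((Q r : Finset (Fin (r + 1) → X)) : Set (Fin (r + 1) → X)) := by
      ext s
      rw [Finset.mem_coe, hQmem]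
      rfl
    rw [e, Set.ncard_coe_finset] at h7
    exact_mod_cast h7
  calc ∑ s ∈ Q r, ((Cs r s).card : ℝ)
      ≤ ∑ _s ∈ Q r, (Fintype.card C : ℝ) / (M : ℝ) ^ r := Finset.sum_le_sum h4
    _ = (Q r).card * ((Fintype.card C : ℝ) / (M : ℝ) ^ r) := by
        rw [Finset.sum_const, nsmul_eq_mul]
    _ ≤ ((S.card : ℝ) ^ r * b r) * ((Fintype.card C : ℝ) / (M : ℝ) ^ r) :=
        mul_le_mul_of_nonneg_right h6 (by positivity)
    _ = (Fintype.card C : ℝ) * ((S.card : ℝ) ^ r * b r / (M : ℝ) ^ r) := by ring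

/-- Fibres of a surjective homomorphism. -/
theorem card_fiber_le {A B : Type*} [AddCommGroup A] [AddCommGroup B] [Fintype A] [Fintype B]
    (f : A →+ B) (hf : Function.Surjective f) (y : B) :
    {c : A | f c = y}.ncard * Fintype.card B ≤ Fintype.card A := by
  classical
  have hcard : ∀ z, (univ.filter fun c => f c = z).card = (univ.filter fun c => f c = y).card :=
    fun z => AddMonoidHom.card_fiber_eq_of_mem_range f (hf z) (hf y)
  have h1 : Fintype.card A = ∑ z : B, (univ.filter fun c => f c = z).card := by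
    rw [← Finset.card_univ]
    exact Finset.card_eq_sum_card_fiberwise (fun c _ => Finset.mem_coe.2 (Finset.mem_univ _))
  have h2 : Fintype.card A = Fintype.card B * (univ.filter fun c => f c = y).card := by
    rw [h1, Finset.sum_congr rfl fun z _ => hcard z, Finset.sum_const, smul_eq_mul,
      Finset.card_univ]
  have h3 : {c : A | f c = y}.ncard = (univ.filter fun c => f c = y).card := by
    rw [← Set.ncard_coe_finset]
    congr 1
    ext c
    simp
  rw [h3, h2, mul_comm]

variable {F : Type*} [Field F] {m : ℕ} {w : Fin (m + 1) → ℕ}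

/-- Equidistribution of the values at affinely independent points. -/
theorem fiber_affine [Fintype F] (hw : ∀ i, 1 ≤ w i) {r : ℕ}
    (x : Fin r → Fin (m + 1) → F)
    (hx : LinearIndependent F fun k => ((1 : F), x k)) (y : Fin r → Fin (m + 1) → F) :
    {c : VIdx m w → F | ∀ k, pm (vP c) (x k) = y k}.ncard *
      Fintype.card (Fin (m + 1) → F) ^ r ≤ Fintype.card (VIdx m w → F) := by
  classical
  choose P hP1 hP2 using interp_affine (d := 1) le_rfl x hx
  let f : (VIdx m w → F) →+ (Fin r → Fin (m + 1) → F) :=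
    { toFun := fun c k => pm (vP c) (x k)
      map_zero' := by
        funext k i
        simp [pm, vP]
      map_add' := by
        intro c c'
        funext k i
        simp [pm, vP, Finset.sum_add_distrib] }
  have hf : Function.Surjective f := by
    intro y
    refine ⟨fun k' : VIdx m w =>
      coeff (k'.2 : Fin (m + 1) →₀ ℕ) ((fun i => ∑ k, C (y k i) * P k) k'.1), ?_⟩
    funext k i
    change pm (vP _) (x k) i = y k i
    rw [pm, vP_coeff (fun i => ∑ k, C (y k i) * P k)]
    · rw [map_sum]
      simp only [map_mul, eval_C, hP2]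
      simp
    · intro i s hs
      rw [coeff_sum]
      refine Finset.sum_eq_zero fun k _ => ?_
      have hs1 : ¬ s.degree ≤ 1 := fun h => hs (h.trans (hw i))
      rw [coeff_C_mul, hP1 k s hs1, mul_zero]
  have h := card_fiber_le f hf y
  have e : {c : VIdx m w → F | ∀ k, pm (vP c) (x k) = y k} =
      {c : VIdx m w → F | f c = y} := by
    ext c
    exact ⟨fun h => funext h, fun h k => congrFun h k⟩
  have e2 : Fintype.card (Fin r → Fin (m + 1) → F) = Fintype.card (Fin (m + 1) → F) ^ r := by
    rw [Fintype.card_fun (α := Fin r), Fintype.card_fin]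
  rw [e, ← e2]
  exact h

theorem vF_add (c c' : VIdx m w → F) (i : Fin (m + 1)) :
    vF (c + c') i = vF c i + vF c' i := by
  simp [vF, vP, Finset.sum_add_distrib]

/-- Equidistribution of the values of the leading forms at independent points. -/
theorem fiber_form [Fintype F] (hw : ∀ i, 1 ≤ w i) (I : Finset (Fin (m + 1))) {r : ℕ}
    (x : Fin r → Fin (m + 1) → F)
    (hx : LinearIndependent F x) (y : Fin r → Fin (m + 1) → F) :
    {c : VIdx m w → F | ∀ k, ∀ i ∈ I, eval (x k) (vF c i) = y k i}.ncard *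
      (Fintype.card F ^ I.card) ^ r ≤ Fintype.card (VIdx m w → F) := by
  classical
  have hex : ∀ (i : Fin (m + 1)) (k : Fin r), ∃ P : MvPolynomial (Fin (m + 1)) F,
      P.IsHomogeneous (w i) ∧ ∀ j, eval (x j) P = if j = k then 1 else 0 := fun i k =>
    interp_form (d := w i) (by have := hw i; omega) x hx k
  choose P hP1 hP2 using hex
  let f : (VIdx m w → F) →+ (Fin r → I → F) :=
    { toFun := fun c k i => eval (x k) (vF c i)
      map_zero' := by
        funext k i
        simp [vF, vP]
      map_add' := by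
        intro c c'
        funext k i
        simp only [Pi.add_apply]
        rw [vF_add, map_add] }
  have hf : Function.Surjective f := by
    intro z
    set y' : Fin r → Fin (m + 1) → F := fun k i => if h : i ∈ I then z k ⟨i, h⟩ else 0 with hy'
    have hQ : ∀ i, (∑ k, C (y' k i) * P i k : MvPolynomial (Fin (m + 1)) F).IsHomogeneous
        (w i) := by
      intro i
      refine IsHomogeneous.sum _ _ _ fun k _ => ?_
      have := (isHomogeneous_C (Fin (m + 1)) (y' k i)).mul (hP1 i k)
      simpa using this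
    refine ⟨fun k' : VIdx m w =>
      coeff (k'.2 : Fin (m + 1) →₀ ℕ) ((fun i => ∑ k, C (y' k i) * P i k) k'.1), ?_⟩
    funext k i
    change eval (x k) (vF _ i) = z k i
    rw [vF, vP_coeff (fun i => ∑ k, C (y' k i) * P i k)]
    · simp only
      rw [homogeneousComponent_of_mem (hQ i), if_pos rfl, map_sum]
      simp only [map_mul, eval_C, hP2]
      simp [hy']
    · intro i s hs
      exact (hQ i).coeff_eq_zero (by omega)
  have h := card_fiber_le f hf (fun (k : Fin r) (i : I) => y k (i : Fin (m + 1)))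
  have e : {c : VIdx m w → F | ∀ k, ∀ i ∈ I, eval (x k) (vF c i) = y k i} =
      {c : VIdx m w → F | f c = fun (k : Fin r) (i : I) => y k (i : Fin (m + 1))} := by
    ext c
    constructor
    · intro h
      funext k i
      exact h k i i.2
    · intro h k i hi
      exact congrFun (congrFun h k) ⟨i, hi⟩
  have e2 : Fintype.card (Fin r → I → F) = (Fintype.card F ^ I.card) ^ r := by
    rw [Fintype.card_fun (α := Fin r), Fintype.card_fun, Fintype.card_coe, Fintype.card_fin]
  rw [e, ← e2]
  exact h

theorem card_hyper [Fintype F] [DecidablePred fun x : Fin (m + 1) → F => x (Fin.last m) = 0] :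
    (univ.filter fun x : Fin (m + 1) → F => x (Fin.last m) = 0).card = Fintype.card F ^ m := by
  classical
  have h : (univ.filter fun x : Fin (m + 1) → F => x (Fin.last m) = 0) =
      (univ : Finset (Fin m → F)).image fun y => (Fin.snoc y 0 : Fin (m + 1) → F) := by
    ext x
    simp only [Finset.mem_filter, Finset.mem_univ, true_and, Finset.mem_image]
    constructor
    · intro hx
      refine ⟨Fin.init x, ?_⟩
      rw [← hx]
      exact Fin.snoc_init_self x
    · rintro ⟨y, rfl⟩
      simp
  have hinj : Function.Injective fun y : Fin m → F => (Fin.snoc y 0 : Fin (m + 1) → F) := by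
    intro y y' hy
    have h1 := congrArg (fun z : Fin (m + 1) → F => Fin.init (α := fun _ => F) z) hy
    simpa using h1
  rw [h, Finset.card_image_of_injective _ hinj]
  simp

theorem bad1 [Fintype F] (hw : ∀ i, 1 ≤ w i) :
    {c : VIdx m w → F | ¬ V1 c}.ncard * Fintype.card F ≤
      (m + 2) * Fintype.card (VIdx m w → F) := by
  classical
  set q := Fintype.card F with hq
  have hq0 : 0 < q := Fintype.card_pos
  set S : Finset (Fin (m + 1) → F) := univ.filter fun x => x (Fin.last m) = 0 with hS
  have hcount := trap_count (F := F) (X := Fin (m + 1) → F) (W := F × (Fin (m + 1) → F))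
    (C := VIdx m w → F) (fun c => pm (vP c)) (fun x => ((1 : F), x)) S
    (fun r x hx y => fiber_affine hw x hx y) (fun r => q ^ (r - 1)) (by
      intro r x _ hx
      rcases Set.eq_empty_or_nonempty {z | z ∈ S ∧ ((1 : F), z) ∈
        Submodule.span F (Set.range fun k => ((1 : F), x k))} with h0 | ⟨z₀, _, hz₀⟩
      · rw [h0]
        simp
      set Z := {z | z ∈ S ∧ ((1 : F), z) ∈
        Submodule.span F (Set.range fun k => ((1 : F), x k))} with hZ
      have hr : r ≠ 0 := by
        rintro rfl
        have he : (Set.range fun k : Fin 0 => ((1 : F), x k)) = ∅ := Set.range_eq_empty _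
        rw [he, Submodule.span_empty, Submodule.mem_bot] at hz₀
        exact one_ne_zero (Prod.mk.inj hz₀).1
      -- `q * #Z ≤ q ^ r`
      have h1 : q * Z.ncard ≤ q ^ r := by
        rw [hq, ← card_span (fun k => ((1 : F), x k)) hx]
        have h2 : ((Set.univ : Set F) ×ˢ Z).ncard = Fintype.card F * Z.ncard := by
          rw [Set.ncard_prod, Set.ncard_univ, Nat.card_eq_fintype_card]
        rw [← h2]
        refine Set.ncard_le_ncard_of_injOn (fun az : F × (Fin (m + 1) → F) =>
          ((1 : F), az.2) - (1 - az.1) • ((1 : F), z₀)) ?_ ?_ (Set.toFinite _)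
        · rintro ⟨a, z⟩ ⟨_, hz⟩
          exact Submodule.sub_mem _ hz.2 (Submodule.smul_mem _ _ hz₀)
        · rintro ⟨a, z⟩ _ ⟨a', z'⟩ _ h
          simp only [Prod.smul_mk, smul_eq_mul, mul_one, Prod.mk_sub_mk, sub_sub_cancel,
            Prod.mk.injEq] at h
          obtain ⟨h3, h4⟩ := h
          subst h3
          have h5 : z = z' := sub_left_injective h4
          rw [h5]
      have h2 : q * Z.ncard ≤ q * q ^ (r - 1) := by
        rw [← pow_succ']
        have : r - 1 + 1 = r := by omega
        rwa [this]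
      exact Nat.le_of_mul_le_mul_left h2 hq0)
  have hR : Module.finrank F (F × (Fin (m + 1) → F)) = m + 2 := by
    rw [Module.finrank_prod, Module.finrank_self, Module.finrank_fin_fun]
    omega
  rw [hR] at hcount
  have hXc : (Fintype.card (Fin (m + 1) → F) : ℝ) = (q : ℝ) ^ (m + 1) := by
    rw [Fintype.card_fun, Fintype.card_fin]
    push_cast
    rfl
  have hSc : (S.card : ℝ) = (q : ℝ) ^ m := by
    rw [hS, card_hyper]
    push_cast
    rfl
  have hqR : (0 : ℝ) < q := by exact_mod_cast hq0
  have hterm : ∀ r ∈ Finset.Icc 1 (m + 2),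
      (S.card : ℝ) ^ r * ((q ^ (r - 1) : ℕ) : ℝ) / (Fintype.card (Fin (m + 1) → F) : ℝ) ^ r =
        (q : ℝ)⁻¹ := by
    intro r hr
    rw [Finset.mem_Icc] at hr
    obtain ⟨s, rfl⟩ : ∃ s, r = s + 1 := ⟨r - 1, by omega⟩
    rw [hXc, hSc, Nat.add_sub_cancel]
    push_cast
    field_simp
    ring
  rw [Finset.sum_congr rfl hterm, Finset.sum_const, Nat.card_Icc, nsmul_eq_mul] at hcount
  have hle : {c : VIdx m w → F | ¬ V1 c}.ncard ≤
      {cx : (VIdx m w → F) × (Fin (m + 1) → F) | cx.2 ∈ S ∧ ((1 : F), cx.2) ≠ 0 ∧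
        ∀ k, (pm (vP cx.1))^[k] cx.2 ∈ S}.ncard := by
    have h2 := double (fun (c : VIdx m w → F) (x : Fin (m + 1) → F) => x ∈ S ∧
      ((1 : F), x) ≠ 0 ∧ ∀ k, (pm (vP c))^[k] x ∈ S) (univ.filter fun c => ¬ V1 c) 1 (by
        intro c hc
        rw [Finset.mem_filter] at hc
        obtain ⟨_, hc⟩ := hc
        unfold V1 at hc
        push Not at hc
        obtain ⟨x, hx0, hxk⟩ := hc
        rw [Nat.one_le_iff_ne_zero, Ne, Set.ncard_eq_zero (Set.toFinite _)]
        rw [← Ne, ← Set.nonempty_iff_ne_empty]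
        refine ⟨x, ?_, ?_, ?_⟩
        · rw [hS, Finset.mem_filter]
          exact ⟨Finset.mem_univ _, hx0⟩
        · intro h
          exact one_ne_zero (Prod.mk.inj h).1
        · intro k
          rw [hS, Finset.mem_filter]
          exact ⟨Finset.mem_univ _, hxk k⟩)
    rw [mul_one] at h2
    have e : {c : VIdx m w → F | ¬ V1 c} =
        ((univ.filter fun c : VIdx m w → F => ¬ V1 c : Finset _) : Set _) := by
      ext c
      simp
    rw [e, Set.ncard_coe_finset]
    exact h2
  have hfinal : ({c : VIdx m w → F | ¬ V1 c}.ncard : ℝ) * q ≤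
      (m + 2 : ℝ) * Fintype.card (VIdx m w → F) := by
    have h3 : ({c : VIdx m w → F | ¬ V1 c}.ncard : ℝ) ≤
        (Fintype.card (VIdx m w → F) : ℝ) * (((m + 2 + 1 - 1 : ℕ) : ℝ) * (q : ℝ)⁻¹) :=
      le_trans (by exact_mod_cast hle) hcount
    calc ({c : VIdx m w → F | ¬ V1 c}.ncard : ℝ) * q
        ≤ (Fintype.card (VIdx m w → F) : ℝ) * (((m + 2 + 1 - 1 : ℕ) : ℝ) * (q : ℝ)⁻¹) * q :=
          mul_le_mul_of_nonneg_right h3 hqR.le
      _ = (m + 2 : ℝ) * Fintype.card (VIdx m w → F) := by
          have : ((m + 2 + 1 - 1 : ℕ) : ℝ) = (m : ℝ) + 2 := by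
            have : m + 2 + 1 - 1 = m + 2 := by omega
            rw [this]
            push_cast
            ring
          rw [this]
          field_simp
  exact_mod_cast hfinal

theorem vF_isHomogeneous (c : VIdx m w → F) (i : Fin (m + 1)) :
    (vF c i).IsHomogeneous (w i) :=
  homogeneousComponent_isHomogeneous _ _

theorem eval_vF_smul (c : VIdx m w → F) (a : F) (x : Fin (m + 1) → F) (i : Fin (m + 1)) :
    eval (a • x) (vF c i) = a ^ w i * eval x (vF c i) :=
  Pool.Agent.Helper26.MQ.eval_smul_of_hom (vF_isHomogeneous c i) a x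

theorem inV_smul {E : ℕ} {x : Fin (m + 1) → F} (h : InV w E x) (a : F) : InV w E (a • x) := by
  refine ⟨by rw [Pi.smul_apply, h.1, smul_zero], fun i hi => ?_⟩
  rw [Pi.smul_apply, h.2 i hi, smul_zero]

theorem rel_smul {c : VIdx m w → F} {E : ℕ} {x x' : Fin (m + 1) → F} (h : Rel c E x x') (a : F) :
    Rel c E (a • x) (a ^ E • x') := by
  obtain ⟨h1, h2, h3, h4, h5⟩ := h
  refine ⟨inV_smul h1 a, inV_smul h2 _, fun i hi => ?_, ?_, fun i hi => ?_⟩
  · rw [eval_vF_smul, h3 i hi, mul_zero]
  · rw [eval_vF_smul, h4, mul_zero]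
  · rw [eval_vF_smul, Pi.smul_apply, h5 i hi, hi, smul_eq_mul]

/-- the coordinates which do not vanish on the space of level `E` -/
noncomputable def lev (w : Fin (m + 1) → ℕ) (E : ℕ) : Finset (Fin m) :=
  univ.filter fun i => E ≤ w i.castSucc

theorem card_InV [Fintype F] (E : ℕ) [DecidablePred fun x : Fin (m + 1) → F => InV w E x] :
    (univ.filter fun x : Fin (m + 1) → F => InV w E x).card ≤
      Fintype.card F ^ (lev w E).card := by
  classical
  have h1 : (univ.filter fun x : Fin (m + 1) → F => InV w E x).card ≤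
      (univ : Finset (lev w E → F)).card := by
    refine Finset.card_le_card_of_injOn (fun x i => x (i : Fin m).castSucc)
      (fun _ _ => Finset.mem_coe.2 (Finset.mem_univ _)) ?_
    intro x hx y hy hxy
    rw [Finset.mem_coe, Finset.mem_filter] at hx hy
    funext i
    refine Fin.lastCases ?_ (fun j => ?_) i
    · rw [hx.2.1, hy.2.1]
    · by_cases hj : w j.castSucc < E
      · rw [hx.2.2 j hj, hy.2.2 j hj]
      · have hj' : j ∈ lev w E := by
          rw [lev, Finset.mem_filter]
          exact ⟨Finset.mem_univ _, not_lt.1 hj⟩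
        exact congrFun hxy ⟨j, hj'⟩
  refine h1.trans ?_
  rw [Finset.card_univ, Fintype.card_fun, Fintype.card_coe]

theorem bad2_level [Fintype F] (hw : ∀ i, 1 ≤ w i) (E : ℕ) :
    {c : VIdx m w → F | ∃ x : ℕ → Fin (m + 1) → F, (∀ n, Rel c E (x n) (x (n + 1))) ∧
      x 0 ≠ 0}.ncard * Fintype.card F ≤ 2 * (m + 1) * Fintype.card (VIdx m w → F) := by
  classical
  set q := Fintype.card F with hq
  have hq2 : 2 ≤ q := Fintype.one_lt_card
  set S : Finset (Fin (m + 1) → F) := univ.filter fun x => InV w E x with hS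
  set D := (lev w E).card with hD
  set I : Finset (Fin (m + 1)) := insert (Fin.last m) ((lev w E).image Fin.castSucc) with hI
  have hIc : I.card = D + 1 := by
    rw [hI, Finset.card_insert_of_notMem, Finset.card_image_of_injective _
      (Fin.castSucc_injective m)]
    intro h
    rw [Finset.mem_image] at h
    obtain ⟨i, _, hi⟩ := h
    exact Fin.castSucc_ne_last i hi
  have hcount := chain_count (F := F) (X := Fin (m + 1) → F) (W := Fin (m + 1) → F)
    (C := VIdx m w → F) (fun c x x' => Rel c E x x') (fun x => x) S (q ^ (D + 1))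
    (pow_pos (by omega) _)
    (fun r x hx y => by
      refine le_trans (Nat.mul_le_mul_right _ ?_) (by
        have h := fiber_form hw I x hx (fun k i => if w i = E then (if i = Fin.last m then 0
          else y k i) else 0)
        rw [hIc] at h
        exact h)
      refine Set.ncard_le_ncard (fun c hc => ?_) (Set.toFinite _)
      intro k i hi
      obtain ⟨_, _, h3, h4, h5⟩ := hc k
      rw [hI, Finset.mem_insert, Finset.mem_image] at hi
      rcases hi with rfl | ⟨j, hj, rfl⟩
      · rw [h4, if_pos rfl, ite_self]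
      · rw [lev, Finset.mem_filter] at hj
        rcases Nat.lt_or_eq_of_le hj.2 with h6 | h6
        · rw [h3 j h6, if_neg h6.ne']
        · rw [if_pos h6.symm, if_neg (Fin.castSucc_ne_last j)]
          exact (h5 j h6.symm).symm)
    (fun r => q ^ r) (by
      intro r x _ hx
      rw [hq, ← card_span x hx]
      exact Set.ncard_le_ncard (fun z hz => hz.2) (Set.toFinite _))
  have hR : Module.finrank F (Fin (m + 1) → F) = m + 1 := by
    rw [Module.finrank_fin_fun]
  rw [hR] at hcount
  have hqR : (0 : ℝ) < q := by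
    have : 0 < q := by omega
    exact_mod_cast this
  have hSc : (S.card : ℝ) ≤ (q : ℝ) ^ D := by
    have h := card_InV (F := F) (w := w) E
    rw [← hS] at h
    exact_mod_cast h
  have hterm : ∀ r ∈ Finset.Icc 1 (m + 1),
      (S.card : ℝ) ^ r * ((q ^ r : ℕ) : ℝ) / (((q ^ (D + 1) : ℕ)) : ℝ) ^ r ≤ 1 := by
    intro r _
    rw [div_le_one (by positivity)]
    push_cast
    calc (S.card : ℝ) ^ r * (q : ℝ) ^ r ≤ ((q : ℝ) ^ D) ^ r * (q : ℝ) ^ r :=
          mul_le_mul_of_nonneg_right (pow_le_pow_left₀ (by positivity) hSc r) (by positivity)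
      _ = ((q : ℝ) ^ (D + 1)) ^ r := by
          rw [← mul_pow, ← pow_succ]
  have hsum : ∑ r ∈ Finset.Icc 1 (m + 1),
      (S.card : ℝ) ^ r * ((q ^ r : ℕ) : ℝ) / (((q ^ (D + 1) : ℕ)) : ℝ) ^ r ≤ (m + 1 : ℝ) := by
    refine (Finset.sum_le_sum hterm).trans ?_
    rw [Finset.sum_const, Nat.card_Icc, nsmul_eq_mul, mul_one]
    have : m + 1 + 1 - 1 = m + 1 := by omega
    rw [this]
    push_cast
    exact le_rfl
  have hcountN : {cx : (VIdx m w → F) × (Fin (m + 1) → F) | cx.2 ≠ 0 ∧
      ∃ s : ℕ → Fin (m + 1) → F, s 0 = cx.2 ∧ (∀ k, s k ∈ S) ∧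
        ∀ k, Rel cx.1 E (s k) (s (k + 1))}.ncard ≤
      Fintype.card (VIdx m w → F) * (m + 1) := by
    have h := hcount.trans (mul_le_mul_of_nonneg_left hsum (Nat.cast_nonneg _))
    exact_mod_cast h
  have h2 := double (fun (c : VIdx m w → F) (x : Fin (m + 1) → F) => x ≠ 0 ∧
      ∃ s : ℕ → Fin (m + 1) → F, s 0 = x ∧ (∀ k, s k ∈ S) ∧ ∀ k, Rel c E (s k) (s (k + 1)))
      (univ.filter fun c => ∃ x : ℕ → Fin (m + 1) → F, (∀ n, Rel c E (x n) (x (n + 1))) ∧
        x 0 ≠ 0) (q - 1) (by
        intro c hc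
        rw [Finset.mem_filter] at hc
        obtain ⟨_, x, hx, hx0⟩ := hc
        refine scaling_card (F := F) _ (x 0) hx0 fun a ha => ?_
        refine ⟨smul_ne_zero ha hx0, fun n => a ^ (E ^ n) • x n, ?_, fun k => ?_, fun k => ?_⟩
        · simp only
          rw [pow_zero, pow_one]
        · rw [hS, Finset.mem_filter]
          exact ⟨Finset.mem_univ _, inV_smul (hx k).1 _⟩
        · simp only
          have h := rel_smul (hx k) (a ^ (E ^ k))
          rw [← pow_mul, ← pow_succ] at h
          exact h)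
  have e1 : {c : VIdx m w → F | ∃ x : ℕ → Fin (m + 1) → F,
      (∀ n, Rel c E (x n) (x (n + 1))) ∧ x 0 ≠ 0} =
      ((univ.filter fun c : VIdx m w → F => ∃ x : ℕ → Fin (m + 1) → F,
        (∀ n, Rel c E (x n) (x (n + 1))) ∧ x 0 ≠ 0 : Finset _) : Set _) := by
    ext c
    simp
  rw [e1, Set.ncard_coe_finset]
  have h3 := h2.trans hcountN
  have h4 : q ≤ 2 * (q - 1) := by omega
  calc _ * q ≤ _ * (2 * (q - 1)) := Nat.mul_le_mul_left _ h4
    _ = 2 * (_ * (q - 1)) := by ring
    _ ≤ 2 * (Fintype.card (VIdx m w → F) * (m + 1)) := Nat.mul_le_mul_left _ h3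
    _ = 2 * (m + 1) * Fintype.card (VIdx m w → F) := by ring

/-- a bound for the levels -/
noncomputable def topLev (w : Fin (m + 1) → ℕ) : ℕ := univ.sup w

theorem bad2 [Fintype F] (hw : ∀ i, 1 ≤ w i) :
    {c : VIdx m w → F | ¬ V2 c}.ncard * Fintype.card F ≤
      (topLev w + 1) * (2 * (m + 1)) * Fintype.card (VIdx m w → F) := by
  classical
  set Bd : ℕ → Set (VIdx m w → F) := fun E => {c | ∃ x : ℕ → Fin (m + 1) → F,
    (∀ n, Rel c E (x n) (x (n + 1))) ∧ x 0 ≠ 0} with hBd
  have hsub : {c : VIdx m w → F | ¬ V2 c} ⊆ ⋃ E ∈ Finset.range (topLev w + 1), Bd E := by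
    intro c hc
    change ¬ V2 c at hc
    rw [V2] at hc
    push Not at hc
    obtain ⟨E, x, hx, hx0⟩ := hc
    rw [Set.mem_iUnion₂]
    refine ⟨E, ?_, x, hx, hx0⟩
    rw [Finset.mem_range]
    by_contra hcon
    apply hx0
    have h1 := (hx 0).1
    funext i
    refine Fin.lastCases ?_ (fun j => ?_) i
    · exact h1.1
    · refine h1.2 j ?_
      have h2 : w j.castSucc ≤ topLev w := Finset.le_sup (Finset.mem_univ _)
      omega
  have h1 : {c : VIdx m w → F | ¬ V2 c}.ncard ≤ ∑ E ∈ Finset.range (topLev w + 1),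
      (Bd E).ncard := by
    refine (Set.ncard_le_ncard hsub (Set.toFinite _)).trans ?_
    exact Finset.set_ncard_biUnion_le _ _
  calc _ ≤ (∑ E ∈ Finset.range (topLev w + 1), (Bd E).ncard) * Fintype.card F :=
        Nat.mul_le_mul_right _ h1
    _ = ∑ E ∈ Finset.range (topLev w + 1), (Bd E).ncard * Fintype.card F := Finset.sum_mul _ _ _
    _ ≤ ∑ _E ∈ Finset.range (topLev w + 1),
        2 * (m + 1) * Fintype.card (VIdx m w → F) :=
        Finset.sum_le_sum fun E _ => bad2_level hw E
    _ = _ := by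
        rw [Finset.sum_const, Finset.card_range, smul_eq_mul]
        ring

end Pool.Agent.Helper52.DV
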