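import Pool.Agent.Helper87.DV.Dom

/-!
# The generic condition over a field of characteristic zero
-/

set_option autoImplicit false

namespace Pool.Agent.Helper52.DV

open MvPolynomial Pool.Agent.Helper26.DV Pool.Agent.Helper87.DV

variable {m : ℕ} {w : Fin (m + 1) → ℕ}

/-- the index of `x_k x_N ^ (w_N - 1)` in the last component -/
noncomputable def igv (h0 : 1 ≤ w (Fin.last m)) (k : Fin m) : VIdx m w :=
  ⟨Fin.last m, ⟨Finsupp.single k.castSucc 1 + Finsupp.single (Fin.last m) (w (Fin.last m) - 1), by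
    rw [map_add, Finsupp.degree_single, Finsupp.degree_single]
    omega⟩⟩

section

variable {S S' : Type*} [CommRing S] [CommRing S']

/-- the Schur complement times `w_N c_N` -/
noncomputable def Bv (hw : ∀ i : Fin m, 1 ≤ w i.castSucc) (h0 : 1 ≤ w (Fin.last m))
    (c : VIdx m w → S) : Matrix (Fin m) (Fin m) S :=
  Matrix.of fun i k => (w (Fin.last m) : S) * c (vsp m w) * c (iAv hw i k) -
    (w i.castSucc : S) * c (icv w i) * c (igv h0 k)

/-- the generic condition -/
noncomputable def RZ (hw : ∀ i : Fin m, 1 ≤ w i.castSucc) (h0 : 1 ≤ w (Fin.last m))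
    (c : VIdx m w → S) : S :=
  c (vsp m w) * TV (wl w) (kp (wl w)) (Bv hw h0 c) (zv c)

theorem map_RZ (φ : S →+* S') (hw : ∀ i : Fin m, 1 ≤ w i.castSucc) (h0 : 1 ≤ w (Fin.last m))
    (c : VIdx m w → S) : φ (RZ hw h0 c) = RZ hw h0 (fun k => φ (c k)) := by
  rw [RZ, RZ, map_mul, map_TV]
  have h : (fun i => φ (zv c i)) = zv (fun k => φ (c k)) := by
    funext i
    rw [zv, zv, map_mul, map_natCast]
  have h2 : (Bv hw h0 c).map φ = Bv hw h0 (fun k => φ (c k)) := by
    ext i k
    simp only [Bv, Matrix.map_apply, Matrix.of_apply, map_sub, map_mul, map_natCast]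
  rw [h, h2]

end

theorem ce0_g (h0 : 1 ≤ w (Fin.last m)) (k : Fin m) :
    cv0 w (igv h0 k) = 0 := by
  classical
  have h : cv0 w (igv h0 k) = ce0 w (Fin.last m) (Finsupp.single k.castSucc 1 +
    Finsupp.single (Fin.last m) (w (Fin.last m) - 1)) := rfl
  have h1 : (Finsupp.single k.castSucc 1 + Finsupp.single (Fin.last m) (w (Fin.last m) - 1) :
      Fin (m + 1) →₀ ℕ) k.castSucc = 1 := by
    rw [Finsupp.add_apply, Finsupp.single_eq_same,
      Finsupp.single_eq_of_ne (Fin.castSucc_ne_last k), add_zero]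
  rw [h, ce0, if_neg, if_neg]
  · intro h2
    rw [h2, Finsupp.add_apply, Finsupp.single_eq_of_ne (Fin.castSucc_ne_last k),
      Finsupp.single_eq_of_ne (Fin.castSucc_ne_last k)] at h1
    omega
  · intro h2
    rw [h2, Finsupp.single_eq_of_ne (Fin.castSucc_ne_last k)] at h1
    omega

theorem cv0_sp : cv0 w (vsp m w) = 1 := by
  classical
  have h : cv0 w (vsp m w) = ce0 w (Fin.last m) (Finsupp.single (Fin.last m)
    (w (Fin.last m))) := rfl
  rw [h, ce0, if_pos rfl]

theorem RZ_cv0 (hw : ∀ i : Fin m, 1 ≤ w i.castSucc) (h0 : 1 ≤ w (Fin.last m))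
    (hw' : ∀ i : Fin m, w i.castSucc < w (Fin.last m)) : RZ hw h0 (cv0 w) ≠ 0 := by
  classical
  have h1 : Bv hw h0 (cv0 w) = Matrix.diagonal fun i : Fin m =>
      (w (Fin.last m) : ℤ) * (((i : ℕ) : ℤ) + 1) := by
    ext i k
    have h2 : cv0 w (iAv hw i k) = if i = k then ((i : ℕ) : ℤ) + 1 else 0 := by
      have h3 := congrFun (congrFun (Av_cv0 hw) i) k
      rw [Av, Matrix.of_apply, Matrix.diagonal_apply] at h3
      exact h3
    rw [Bv, Matrix.of_apply, ce0_g, mul_zero, sub_zero, cv0_sp, mul_one, h2,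
      Matrix.diagonal_apply]
    split_ifs
    · rfl
    · rw [mul_zero]
  have hw0 : (w (Fin.last m) : ℤ) ≠ 0 := by exact_mod_cast (by omega : w (Fin.last m) ≠ 0)
  rw [RZ, cv0_sp, one_mul, h1]
  refine TV_diag _ _ (fun i j h => ?_) (fun i => ?_) _ fun i => ?_
  · have h1 : ((i : ℕ) : ℤ) + 1 = ((j : ℕ) : ℤ) + 1 := mul_left_cancel₀ hw0 h
    exact Fin.ext (by omega)
  · refine mul_ne_zero hw0 ?_
    have : (0 : ℤ) ≤ ((i : ℕ) : ℤ) := Int.natCast_nonneg _
    omega
  · rw [zv_cv0]
    have := hw' i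
    exact_mod_cast (show w (Fin.last m) - w i.castSucc ≠ 0 by omega)

/-- the generic polynomial -/
noncomputable def GRZ (hw : ∀ i : Fin m, 1 ≤ w i.castSucc) (h0 : 1 ≤ w (Fin.last m)) :
    MvPolynomial (VIdx m w) ℤ :=
  RZ hw h0 X

theorem aeval_GRZ {S : Type*} [CommRing S] (hw : ∀ i : Fin m, 1 ≤ w i.castSucc)
    (h0 : 1 ≤ w (Fin.last m)) (c : VIdx m w → S) : aeval c (GRZ hw h0) = RZ hw h0 c := by
  have h := map_RZ ((aeval c : MvPolynomial (VIdx m w) ℤ →ₐ[ℤ] S) :
    MvPolynomial (VIdx m w) ℤ →+* S) hw h0 X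
  have h2 : ∀ k, ((aeval c : MvPolynomial (VIdx m w) ℤ →ₐ[ℤ] S) :
    MvPolynomial (VIdx m w) ℤ →+* S) (X k) = c k := fun k => aeval_X c k
  simp only [h2] at h
  exact h

theorem GRZ_ne_zero (hw : ∀ i : Fin m, 1 ≤ w i.castSucc) (h0 : 1 ≤ w (Fin.last m))
    (hw' : ∀ i : Fin m, w i.castSucc < w (Fin.last m)) : GRZ hw h0 ≠ 0 := by
  intro h
  have h1 := aeval_GRZ hw h0 (cv0 w)
  rw [h, map_zero] at h1
  exact RZ_cv0 hw h0 hw' h1.symm

/-- The generic condition gives the block decomposition. -/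
theorem vdom_field {K : Type*} [Field K] [CharZero K] (hw : ∀ i : Fin m, 1 ≤ w i.castSucc)
    (hw' : ∀ i : Fin m, w i.castSucc < w (Fin.last m)) (h0 : 1 ≤ w (Fin.last m))
    {Φ : Fin (m + 1) → MvPolynomial (Fin (m + 1)) K} (hdeg : ∀ i, (Φ i).totalDegree ≤ w i)
    (hT : RZ hw h0 (fun k : VIdx m w => coeff (k.2 : Fin (m + 1) →₀ ℕ) (Φ k.1)) ≠ 0) :
    VDom w Φ := by
  classical
  set d := w (Fin.last m) with hd
  set al : K := vz w Φ (Fin.last m) with hal
  set g : Fin m → K := fun k => coeff (Finsupp.single k.castSucc 1 +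
    Finsupp.single (Fin.last m) (w (Fin.last m) - 1)) (Φ (Fin.last m)) with hg
  set z : Fin m → K := fun i => ((w (Fin.last m) - w i.castSucc : ℕ) : K) *
    vz w Φ i.castSucc with hzdef
  rw [RZ] at hT
  have hal0 : al ≠ 0 := left_ne_zero_of_mul hT
  have hTV := right_ne_zero_of_mul hT
  have hdn0 : ((d : ℕ) : K) ≠ 0 := by exact_mod_cast (by omega : d ≠ 0)
  have hda : ((d : ℕ) : K) * al ≠ 0 := mul_ne_zero hdn0 hal0
  set μ : K := ((d : ℕ) : K) * al with hμ
  set B : Matrix (Fin m) (Fin m) K := Bv hw h0 (fun k : VIdx m w =>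
    coeff (k.2 : Fin (m + 1) →₀ ℕ) (Φ k.1)) with hB
  have hBe : ∀ i k, B i k = μ * coeff (Finsupp.single k.castSucc 1 +
      Finsupp.single (Fin.last m) (w i.castSucc - 1)) (Φ i.castSucc) -
      (w i.castSucc : K) * vz w Φ i.castSucc * g k := fun i k => rfl
  obtain ⟨L, U, b, hLU, hU, hL1, hL2, hU2, hb, hspan⟩ := lu_of (wl w) (kp (wl w)) hTV
  have hbU : ∀ i j, bigU (μ⁻¹ • U) g μ i j ≠ 0 → w j ≤ w i := by
    intro i j
    refine Fin.lastCases ?_ (fun j => ?_) j
    · refine Fin.lastCases ?_ (fun i => ?_) i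
      · intro _
        exact le_rfl
      · intro h
        rw [bigU_cl] at h
        exact absurd rfl h
    · refine Fin.lastCases ?_ (fun i => ?_) i
      · intro _
        exact (hw' j).le
      · intro h
        rw [bigU_cc] at h
        refine hU2 i j fun h3 => h ?_
        rw [Matrix.smul_apply, h3, smul_zero]
  refine ⟨hdeg, bigL L (fun i => (w i.castSucc : K) * vz w Φ i.castSucc / μ),
    bigU (μ⁻¹ • U) g μ, bigv b, ?_, ?_, ?_, ?_, ?_, ?_, ?_⟩
  rotate_left 1
  · rw [det_vD _ hbU]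
    refine bigU_det _ g _ ?_ hda
    rw [Matrix.det_smul]
    exact mul_ne_zero (pow_ne_zero _ (inv_ne_zero hda)) hU
  rotate_right 1
  · ext i j
    rw [Matrix.mul_apply, Fin.sum_univ_castSucc]
    refine Fin.lastCases ?_ (fun j => ?_) j
    · rw [bigU_ll, vJ, Matrix.of_apply, if_pos rfl]
      refine Fin.lastCases ?_ (fun i => ?_) i
      · rw [bigL_ll, one_mul, Finset.sum_eq_zero, zero_add]
        intro k _
        rw [bigU_cl, mul_zero]
      · rw [bigL_cl, div_mul_cancel₀ _ hda, Finset.sum_eq_zero, zero_add]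
        intro k _
        rw [bigU_cl, mul_zero]
    · rw [bigU_lc, vJ, Matrix.of_apply, if_neg (Fin.castSucc_ne_last j)]
      refine Fin.lastCases ?_ (fun i => ?_) i
      · rw [bigL_ll, one_mul, Finset.sum_eq_zero, zero_add]
        intro k _
        rw [bigL_lc, zero_mul]
      · rw [bigL_cl]
        have h1 : ∑ k : Fin m, bigL L (fun i => (w i.castSucc : K) * vz w Φ i.castSucc / μ)
            i.castSucc k.castSucc * bigU (μ⁻¹ • U) g μ k.castSucc j.castSucc =
            μ⁻¹ * B i j := by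
          rw [hLU, Matrix.mul_apply, Finset.mul_sum]
          refine Finset.sum_congr rfl fun k _ => ?_
          rw [bigL_cc, bigU_cc, Matrix.smul_apply, smul_eq_mul]
          ring
        rw [h1, hBe]
        field_simp
        ring
  · intro i
    refine Fin.lastCases ?_ (fun i => ?_) i
    · exact bigL_ll _ _
    · rw [bigL_cc]
      exact hL1 i
  · intro i j
    refine Fin.lastCases ?_ (fun j => ?_) j
    · refine Fin.lastCases ?_ (fun i => ?_) i
      · intro h
        exact absurd rfl h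
      · intro _ _
        exact hw' i
    · refine Fin.lastCases ?_ (fun i => ?_) i
      · intro _ h
        rw [bigL_lc] at h
        exact absurd rfl h
      · intro h1 h2
        rw [bigL_cc] at h2
        exact hL2 i j (fun h => h1 (by rw [h])) h2
  · exact hbU
  · funext i
    rw [Matrix.mulVec, dotProduct, Fin.sum_univ_castSucc, bigv_l, mul_zero, add_zero]
    refine Fin.lastCases ?_ (fun i => ?_) i
    · rw [Nat.sub_self, Nat.cast_zero, zero_mul]
      refine Finset.sum_eq_zero fun k _ => ?_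
      rw [bigL_lc, zero_mul]
    · have h1 := congrFun hb i
      rw [Matrix.mulVec, dotProduct] at h1
      simp only [bigL_cc, bigv_c]
      exact h1
  · rw [Submodule.eq_top_iff']
    intro v
    have hv : v = bigl (fun i => v i.castSucc) +
        v (Fin.last m) • (Pi.single (Fin.last m) 1 : Fin (m + 1) → K) := by
      funext i
      rw [Pi.add_apply, Pi.smul_apply]
      refine Fin.lastCases ?_ (fun i => ?_) i
      · rw [bigl_apply, bigv_l, Pi.single_eq_same, zero_add, smul_eq_mul, mul_one]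
      · rw [bigl_apply, bigv_c, Pi.single_eq_of_ne (Fin.castSucc_ne_last i), smul_zero,
          add_zero]
    rw [hv]
    refine Submodule.add_mem _ ?_ (Submodule.smul_mem _ _ (Submodule.subset_span (Or.inl rfl)))
    have h1 := Submodule.mem_map_of_mem (f := bigl) (hspan fun i => v i.castSucc)
    rw [Submodule.map_span] at h1
    refine (Submodule.span_le.2 ?_) h1
    rintro _ ⟨_, ⟨k, j, rfl⟩, rfl⟩
    have hdg : dg (wl w) (μ⁻¹ • U) = μ⁻¹ • dg (wl w) U := by
      ext i j
      simp only [dg, Matrix.of_apply, Matrix.smul_apply, smul_eq_mul]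
      split_ifs
      · rfl
      · rw [mul_zero]
    have h2 : bigl ((dg (wl w) U ^ k).mulVec (lv (wl w) (wl w j) b)) =
        μ ^ k • ((vD w (bigU (μ⁻¹ • U) g μ)) ^ k).mulVec
          (fun i => if w i = wl w j then bigv b i else 0) := by
      have h3 : (fun i => if w i = wl w j then bigv b i else 0) =
          bigv (lv (wl w) (wl w j) b) := by
        funext i
        refine Fin.lastCases ?_ (fun i => ?_) i
        · rw [bigv_l, bigv_l, ite_self]
        · rw [bigv_c, bigv_c]
          rfl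
      have h4 := diag_pow_bigv (μ⁻¹ • U) g μ hw' (lv (wl w) (wl w j) b) k
      rw [h3]
      rw [h4, hdg, smul_pow, Matrix.smul_mulVec, ← bigl_apply, map_smul, smul_smul,
        ← mul_pow, mul_inv_cancel₀ hda, one_pow, one_smul]
    rw [SetLike.mem_coe, h2]
    exact Submodule.smul_mem _ _ (Submodule.subset_span (Or.inr ⟨k, wl w j, rfl⟩))

end Pool.Agent.Helper52.DV
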