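import Mathlib

/-!
# Counting in a box of integers
-/

set_option autoImplicit false

namespace Pool.Agent.Helper52.DV

open MvPolynomial

/-- the interval -/
noncomputable abbrev Iz (B : ℕ) : Finset ℤ := Finset.Icc (-(B : ℤ)) B

theorem card_Iz (B : ℕ) : (Iz B).card = 2 * B + 1 := by
  rw [Int.card_Icc]
  omega

section

variable {ι : Type*} [Fintype ι] [DecidableEq ι]

/-- the box of arrays -/
noncomputable abbrev boxZ (ι : Type*) [Fintype ι] [DecidableEq ι] (B : ℕ) : Finset (ι → ℤ) :=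
  Fintype.piFinset fun _ => Iz B

theorem card_boxZ (B : ℕ) : (boxZ ι B).card = (2 * B + 1) ^ Fintype.card ι := by
  rw [Fintype.card_piFinset, Finset.prod_const, card_Iz, Finset.card_univ]

theorem update_mem_boxZ {B : ℕ} {c : ι → ℤ} (hc : c ∈ boxZ ι B) (i : ι) {u : ℤ} (hu : u ∈ Iz B) :
    Function.update c i u ∈ boxZ ι B := by
  rw [Fintype.mem_piFinset] at hc ⊢
  intro j
  by_cases hj : j = i
  · subst hj
    rw [Function.update_self]
    exact hu
  · rw [Function.update_of_ne hj]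
    exact hc j

/-- Counting by slices. -/
theorem slice {B : ℕ} {T : Finset (ι → ℤ)} (hT : T ⊆ boxZ ι B) (i : ι) (t : ℝ)
    (h : ∀ c ∈ boxZ ι B, (((Iz B).filter fun u => Function.update c i u ∈ T).card : ℝ) ≤ t) :
    (T.card : ℝ) * (2 * B + 1) ≤ t * (boxZ ι B).card := by
  have h1 : (T ×ˢ Iz B).card ≤
      (((boxZ ι B) ×ˢ (Iz B)).filter fun q => Function.update q.1 i q.2 ∈ T).card := by
    refine Finset.card_le_card_of_injOn (fun q => (Function.update q.1 i q.2, q.1 i)) ?_ ?_
    · rintro ⟨c, s⟩ hq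
      rw [Finset.mem_coe, Finset.mem_product] at hq
      rw [Finset.mem_coe, Finset.mem_filter, Finset.mem_product]
      refine ⟨⟨update_mem_boxZ (hT hq.1) i hq.2, ?_⟩, ?_⟩
      · exact Fintype.mem_piFinset.1 (hT hq.1) i
      · change Function.update (Function.update c i s) i (c i) ∈ T
        rw [Function.update_idem, Function.update_eq_self]
        exact hq.1
    · rintro ⟨c, s⟩ - ⟨c', s'⟩ - h
      simp only [Prod.mk.injEq] at h
      have h2 : s = s' := by
        have := congrFun h.1 i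
        rwa [Function.update_self, Function.update_self] at this
      subst h2
      congr 1
      funext j
      by_cases hj : j = i
      · subst hj
        exact h.2
      · have := congrFun h.1 j
        rwa [Function.update_of_ne hj, Function.update_of_ne hj] at this
  have h2 : ((((boxZ ι B) ×ˢ (Iz B)).filter fun q => Function.update q.1 i q.2 ∈ T).card : ℝ) ≤
      t * (boxZ ι B).card := by
    rw [Finset.card_filter, Finset.sum_product]
    push_cast
    calc ∑ c ∈ boxZ ι B, ∑ u ∈ Iz B, (if Function.update c i u ∈ T then (1 : ℝ) else 0)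
        ≤ ∑ c ∈ boxZ ι B, t := by
          refine Finset.sum_le_sum fun c hc => ?_
          have h3 := h c hc
          rw [Finset.card_filter] at h3
          push_cast at h3
          exact h3
      _ = t * (boxZ ι B).card := by
          rw [Finset.sum_const, nsmul_eq_mul, mul_comm]
  have h3 : ((T ×ˢ Iz B).card : ℝ) = (T.card : ℝ) * (2 * B + 1) := by
    rw [Finset.card_product, card_Iz]
    push_cast
    ring
  rw [← h3]
  exact le_trans (by exact_mod_cast h1) h2

/-- Schwartz-Zippel. -/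
theorem zeros_le (R : MvPolynomial ι ℤ) (h0 : R ≠ 0) (B : ℕ) :
    (((boxZ ι B).filter fun c => aeval c R = 0).card : ℝ) * (2 * B + 1) ≤
      (R.totalDegree : ℝ) * (boxZ ι B).card := by
  classical
  set E : ι ≃ Fin (Fintype.card ι) := Fintype.equivFin _ with hE
  set N := Fintype.card ι with hN
  set h' : MvPolynomial (Fin N) ℤ := rename E R with hh'
  have h1 : h' ≠ 0 := by
    intro h2
    apply h0
    exact rename_injective _ E.injective (by rw [map_zero]; exact h2)
  have h2 : h'.totalDegree ≤ R.totalDegree := totalDegree_rename_le _ _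
  have h3 := schwartz_zippel_totalDegree h1 (Iz B)
  rw [card_Iz] at h3
  have h4 : ((boxZ ι B).filter fun c => aeval c R = 0).card =
      ((Fintype.piFinset fun _ : Fin N => Iz B).filter fun f => eval f h' = 0).card := by
    refine Finset.card_equiv (Equiv.arrowCongr E (Equiv.refl _)) fun c => ?_
    rw [Finset.mem_filter, Finset.mem_filter, hh', eval_rename]
    have e : (Equiv.arrowCongr E (Equiv.refl ℤ)) c ∘ E = c := by
      funext i
      simp
    rw [e, Fintype.mem_piFinset, Fintype.mem_piFinset, aeval_eq_eval]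
    refine and_congr ⟨fun h i => ?_, fun h i => ?_⟩ Iff.rfl
    · exact h (E.symm i)
    · have := h (E i)
      simpa using this
  rw [h4, card_boxZ]
  have hp0 : (0 : ℚ≥0) < ((2 * B + 1 : ℕ) : ℚ≥0) := by exact_mod_cast Nat.succ_pos _
  rw [div_le_div_iff₀ (pow_pos hp0 _) hp0] at h3
  have h5 : (((Fintype.piFinset fun _ : Fin N => Iz B).filter
        fun f => eval f h' = 0).card : ℚ≥0) * ((2 * B + 1 : ℕ) : ℚ≥0) ≤
        R.totalDegree * ((2 * B + 1 : ℕ) : ℚ≥0) ^ N := by
    refine h3.trans ?_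
    exact mul_le_mul_of_nonneg_right (by exact_mod_cast h2) (by positivity)
  have h6 : ((Fintype.piFinset fun _ : Fin N => Iz B).filter
        fun f => eval f h' = 0).card * (2 * B + 1) ≤ R.totalDegree * (2 * B + 1) ^ N := by
    exact_mod_cast h5
  have h7 : ((((Fintype.piFinset fun _ : Fin N => Iz B).filter
        fun f => eval f h' = 0).card * (2 * B + 1) : ℕ) : ℝ) ≤
        ((R.totalDegree * (2 * B + 1) ^ N : ℕ) : ℝ) := by exact_mod_cast h6
  push_cast at h7 ⊢
  exact h7

end

/-- The number of integers in an open disc. -/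
theorem card_near (r : ℂ) (ρ : ℝ) (hρ : 0 ≤ ρ) (S : Finset ℤ)
    (h : ∀ u ∈ S, ‖(u : ℂ) - r‖ < ρ) : (S.card : ℝ) ≤ 2 * ρ + 1 := by
  rcases S.eq_empty_or_nonempty with rfl | ⟨u, hu⟩
  · simp
    positivity
  have h1 : S ⊆ Finset.Icc ⌈r.re - ρ⌉ ⌊r.re + ρ⌋ := by
    intro v hv
    have h2 := (Complex.abs_re_le_norm _).trans_lt (h v hv)
    rw [Complex.sub_re, Complex.intCast_re, abs_lt] at h2
    rw [Finset.mem_Icc, Int.ceil_le, Int.le_floor]
    constructor <;> linarith
  have h2 := Finset.mem_Icc.1 (h1 hu)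
  have h3 : S.card ≤ (⌊r.re + ρ⌋ + 1 - ⌈r.re - ρ⌉).toNat := by
    refine (Finset.card_le_card h1).trans ?_
    rw [Int.card_Icc]
  have h4 : ((⌊r.re + ρ⌋ + 1 - ⌈r.re - ρ⌉).toNat : ℝ) =
      ((⌊r.re + ρ⌋ + 1 - ⌈r.re - ρ⌉ : ℤ) : ℝ) := by
    have h5 : ((⌊r.re + ρ⌋ + 1 - ⌈r.re - ρ⌉).toNat : ℤ) = ⌊r.re + ρ⌋ + 1 - ⌈r.re - ρ⌉ :=
      Int.toNat_of_nonneg (by omega)
    exact_mod_cast congrArg (fun z : ℤ => (z : ℝ)) h5
  have h5 : (S.card : ℝ) ≤ ((⌊r.re + ρ⌋ + 1 - ⌈r.re - ρ⌉).toNat : ℝ) := by exact_mod_cast h3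
  rw [h4] at h5
  push_cast at h5
  have h6 := Int.floor_le (r.re + ρ)
  have h7 := Int.le_ceil (r.re - ρ)
  linarith

/-- The number of integers at which a polynomial is small. -/
theorem card_small (g : Polynomial ℂ) (ρ : ℝ) (hρ : 0 ≤ ρ) (S : Finset ℤ)
    (h : ∀ u ∈ S, ‖g.eval (u : ℂ)‖ < ‖g.leadingCoeff‖ * ρ ^ g.natDegree) :
    (S.card : ℝ) ≤ g.natDegree * (2 * ρ + 1) := by
  classical
  have hsp : g.Splits := IsAlgClosed.splits g
  have h1 : S ⊆ g.roots.toFinset.biUnion fun r => S.filter fun u : ℤ => ‖(u : ℂ) - r‖ < ρ := by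
    intro u hu
    rw [Finset.mem_biUnion]
    by_contra hne
    push Not at hne
    have h2 := h u hu
    rw [hsp.eval_eq_prod_roots, norm_mul] at h2
    have h3 : ρ ^ g.natDegree ≤ ‖(g.roots.map (fun r => (u : ℂ) - r)).prod‖ := by
      rw [hsp.natDegree_eq_card_roots, ← Multiset.prod_replicate]
      have h4 : ‖(g.roots.map (fun r => (u : ℂ) - r)).prod‖ =
          (g.roots.map (fun r => ‖(u : ℂ) - r‖)).prod :=
        (Multiset.prod_hom' g.roots (normHom : ℂ →*₀ ℝ) fun r => (u : ℂ) - r).symm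
      rw [h4, ← Multiset.map_const']
      refine Multiset.prod_map_le_prod_map₀ _ _ (fun r _ => hρ) fun r hr => ?_
      by_contra hlt
      push Not at hlt
      exact hne r (Multiset.mem_toFinset.2 hr) (Finset.mem_filter.2 ⟨hu, hlt⟩)
    exact absurd h2 (not_lt.2 (mul_le_mul_of_nonneg_left h3 (norm_nonneg _)))
  have h2 : S.card ≤ ∑ r ∈ g.roots.toFinset, (S.filter fun u : ℤ => ‖(u : ℂ) - r‖ < ρ).card :=
    (Finset.card_le_card h1).trans Finset.card_biUnion_le
  have h3 : (S.card : ℝ) ≤ ∑ r ∈ g.roots.toFinset,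
      ((S.filter fun u : ℤ => ‖(u : ℂ) - r‖ < ρ).card : ℝ) := by exact_mod_cast h2
  refine h3.trans ?_
  calc ∑ r ∈ g.roots.toFinset, ((S.filter fun u : ℤ => ‖(u : ℂ) - r‖ < ρ).card : ℝ)
      ≤ ∑ r ∈ g.roots.toFinset, (2 * ρ + 1) :=
        Finset.sum_le_sum fun r _ => card_near r ρ hρ _ fun u hu => (Finset.mem_filter.1 hu).2
    _ = g.roots.toFinset.card * (2 * ρ + 1) := by rw [Finset.sum_const, nsmul_eq_mul]
    _ ≤ g.natDegree * (2 * ρ + 1) := by
        refine mul_le_mul_of_nonneg_right ?_ (by positivity)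
        exact_mod_cast (Multiset.toFinset_card_le _).trans (Polynomial.card_roots' g)

end Pool.Agent.Helper52.DV
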