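import Pool.Agent.Helper52.DV.Slice
import Pool.Agent.Helper52.DV.Arch
import Pool.Agent.Helper52.DV.DomZ
import Pool.Agent.Helper26.DV.Term
import Pool.Agent.Helper86.DV.Finite

/-!
# One hundred percent of the maps with integral coefficients
-/

set_option autoImplicit false

namespace Pool.Agent.Helper52.DV

open MvPolynomial
open Pool.Agent.Helper86.MQ (pm)
open Pool.Agent.Helper86.RR (eval_le)
open Pool.Agent.Helper26.GT (wd ca)
open Pool.Agent.Helper86.GT (Es)
open Pool.Agent.Helper26.DV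
open Pool.Agent.Helper86.DV (le_wd)

section lead

variable {K : Type*} [Field K] {m : ℕ}

/-- the restriction of a polynomial to a line in the direction of the last unit vector -/
noncomputable def lineP (y : Fin (m + 1) → K) (P : MvPolynomial (Fin (m + 1)) K) : Polynomial K :=
  aeval (fun j => (if j = Fin.last m then Polynomial.X else 0) + Polynomial.C (y j)) P

theorem eval_lineP (y : Fin (m + 1) → K) (P : MvPolynomial (Fin (m + 1)) K) (t : K) :
    (lineP y P).eval t = eval (fun j => (if j = Fin.last m then t else 0) + y j) P := by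
  have h := map_aeval (fun j => (if j = Fin.last m then Polynomial.X else 0) +
    Polynomial.C (y j)) (Polynomial.evalRingHom t) P
  rw [Polynomial.coe_evalRingHom] at h
  rw [lineP, h, coe_eval₂Hom, eval₂_eq', eval_eq']
  refine Finset.sum_congr rfl fun s _ => ?_
  congr 1
  · simp
  · refine Finset.prod_congr rfl fun j _ => ?_
    congr 1
    split_ifs <;> simp

theorem lineP_aux (y : Fin (m + 1) → K) {P : MvPolynomial (Fin (m + 1)) K} {d : ℕ}
    (hP : P.totalDegree ≤ d) {s : Fin (m + 1) →₀ ℕ} (hs : s ∈ P.support) :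
    (Polynomial.C (coeff s P) * ∏ j, ((if j = Fin.last m then (Polynomial.X : Polynomial K) else 0) +
      Polynomial.C (y j)) ^ s j).natDegree ≤ d ∧
    (Polynomial.C (coeff s P) * ∏ j, ((if j = Fin.last m then (Polynomial.X : Polynomial K) else 0) +
      Polynomial.C (y j)) ^ s j).coeff d =
      if s = Finsupp.single (Fin.last m) d then coeff s P else 0 := by
  have h1 : ∏ j, ((if j = Fin.last m then (Polynomial.X : Polynomial K) else 0) +
      Polynomial.C (y j)) ^ s j = Polynomial.C (∏ j : Fin m, y j.castSucc ^ s j.castSucc) *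
      (Polynomial.X + Polynomial.C (y (Fin.last m))) ^ s (Fin.last m) := by
    rw [Fin.prod_univ_castSucc, if_pos rfl, map_prod]
    congr 1
    refine Finset.prod_congr rfl fun j _ => ?_
    rw [if_neg (Fin.castSucc_ne_last j), zero_add, map_pow]
  have hdeg : s.degree ≤ d := (le_totalDegree hs).trans hP
  have hdeg' := hdeg
  rw [Finsupp.degree_eq_sum, Fin.sum_univ_castSucc] at hdeg'
  have hn : ((Polynomial.X + Polynomial.C (y (Fin.last m))) ^ s (Fin.last m)).natDegree =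
      s (Fin.last m) := by
    rw [Polynomial.natDegree_pow, Polynomial.natDegree_X_add_C, mul_one]
  rw [h1, ← mul_assoc, ← map_mul]
  refine ⟨(Polynomial.natDegree_C_mul_le _ _).trans (hn.le.trans (by omega)), ?_⟩
  rw [Polynomial.coeff_C_mul]
  by_cases hk : s (Fin.last m) = d
  · have h2 : ∀ j : Fin m, s j.castSucc = 0 := by
      have h3 : ∑ j : Fin m, s j.castSucc = 0 := by omega
      intro j
      exact (Finset.sum_eq_zero_iff.1 h3) j (Finset.mem_univ _)
    have h3 : s = Finsupp.single (Fin.last m) d := by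
      ext j
      refine Fin.lastCases ?_ (fun j => ?_) j
      · rw [Finsupp.single_eq_same, hk]
      · rw [h2 j, Finsupp.single_eq_of_ne (Fin.castSucc_ne_last j)]
    rw [if_pos h3, hk, Polynomial.coeff_X_add_C_pow, Nat.sub_self, pow_zero, Nat.choose_self,
      Nat.cast_one, mul_one, mul_one]
    have h4 : ∏ j : Fin m, y j.castSucc ^ s j.castSucc = 1 :=
      Finset.prod_eq_one fun j _ => by rw [h2 j, pow_zero]
    rw [h4, mul_one]
  · rw [if_neg, Polynomial.coeff_eq_zero_of_natDegree_lt, mul_zero]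
    · rw [hn]
      omega
    · intro h
      apply hk
      rw [h, Finsupp.single_eq_same]

theorem natDegree_lineP (y : Fin (m + 1) → K) {P : MvPolynomial (Fin (m + 1)) K} {d : ℕ}
    (hP : P.totalDegree ≤ d) : (lineP y P).natDegree ≤ d := by
  rw [lineP, aeval_def, eval₂_eq']
  exact Polynomial.natDegree_sum_le_of_forall_le _ _ fun s hs => (lineP_aux y hP hs).1

theorem coeff_lineP (y : Fin (m + 1) → K) {P : MvPolynomial (Fin (m + 1)) K} {d : ℕ}
    (hP : P.totalDegree ≤ d) :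
    (lineP y P).coeff d = coeff (Finsupp.single (Fin.last m) d) P := by
  classical
  rw [lineP, aeval_def, eval₂_eq', Polynomial.finsetSum_coeff]
  have h1 : ∀ s ∈ P.support, ((algebraMap K (Polynomial K)) (coeff s P) * ∏ j,
      ((if j = Fin.last m then (Polynomial.X : Polynomial K) else 0) +
      Polynomial.C (y j)) ^ s j).coeff d =
      if s = Finsupp.single (Fin.last m) d then coeff s P else 0 :=
    fun s hs => (lineP_aux y hP hs).2
  rw [Finset.sum_congr rfl h1, Finset.sum_ite_eq']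
  split_ifs with h
  · rfl
  · exact (notMem_support_iff.1 h).symm

end lead

variable {m : ℕ} {w : Fin (m + 1) → ℕ}

/-- the usual absolute value of the complex numbers -/
noncomputable def nC : AbsoluteValue ℂ ℝ where
  toFun x := ‖x‖
  map_mul' := norm_mul
  nonneg' := norm_nonneg
  eq_zero' _ := norm_eq_zero
  add_le' := norm_add_le

/-- the map over `ℂ` with a given integral coefficient array -/
noncomputable def cP (c : VIdx m w → ℤ) : Fin (m + 1) → MvPolynomial (Fin (m + 1)) ℂ :=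
  vP fun k => (c k : ℂ)

/-- the index of the constant coefficient of the last component -/
noncomputable def vc0 (m : ℕ) (w : Fin (m + 1) → ℕ) : VIdx m w :=
  ⟨Fin.last m, ⟨0, by rw [map_zero]; exact Nat.zero_le _⟩⟩

theorem vsp_ne_vc0 (hd : 1 ≤ w (Fin.last m)) : vsp m w ≠ vc0 m w := by
  intro h
  have h1 : (⟨Finsupp.single (Fin.last m) (w (Fin.last m)), _⟩ :
      {s : Fin (m + 1) →₀ ℕ // s.degree ≤ w (Fin.last m)}) = ⟨0, _⟩ :=
    eq_of_heq (Sigma.mk.inj_iff.1 h).2
  have h2 : (Finsupp.single (Fin.last m) (w (Fin.last m)) : Fin (m + 1) →₀ ℕ) (Fin.last m) = 0 :=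
    DFunLike.congr_fun (congrArg Subtype.val h1) (Fin.last m)
  rw [Finsupp.single_eq_same] at h2
  omega

theorem deg_cP (c : VIdx m w → ℤ) (i : Fin (m + 1)) : (cP c i).totalDegree ≤ w i := by
  classical
  rw [cP, vP]
  refine totalDegree_finsetSum_le fun s _ => ?_
  refine (totalDegree_monomial_le _ _).trans ?_
  exact s.2

theorem eval_cP (c : VIdx m w → ℤ) (i : Fin (m + 1)) (x : Fin (m + 1) → ℂ) :
    eval x (cP c i) = ∑ s : {s : Fin (m + 1) →₀ ℕ // s.degree ≤ w i},
      (c ⟨i, s⟩ : ℂ) * ∏ j, x j ^ (s : Fin (m + 1) →₀ ℕ) j := by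
  rw [cP, vP, map_sum]
  refine Finset.sum_congr rfl fun s _ => ?_
  rw [eval_monomial, Finsupp.prod_fintype _ _ (fun _ => pow_zero _)]

theorem eval_update (c : VIdx m w → ℤ) (u : ℤ) (i : Fin (m + 1)) (x : Fin (m + 1) → ℂ) :
    eval x (cP (Function.update c (vc0 m w) u) i) =
      (if i = Fin.last m then ((u - c (vc0 m w) : ℤ) : ℂ) else 0) + eval x (cP c i) := by
  classical
  rw [eval_cP, eval_cP]
  by_cases hi : i = Fin.last m
  · subst hi
    rw [if_pos rfl]
    set z : {s : Fin (m + 1) →₀ ℕ // s.degree ≤ w (Fin.last m)} :=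
      ⟨0, by rw [map_zero]; exact Nat.zero_le _⟩ with hz
    have hzc : (⟨Fin.last m, z⟩ : VIdx m w) = vc0 m w := rfl
    rw [← Finset.add_sum_erase _ _ (Finset.mem_univ z), ← Finset.add_sum_erase (s := Finset.univ)
      (f := fun s : {s : Fin (m + 1) →₀ ℕ // s.degree ≤ w (Fin.last m)} =>
        (c ⟨Fin.last m, s⟩ : ℂ) * ∏ j, x j ^ (s : Fin (m + 1) →₀ ℕ) j) (Finset.mem_univ z)]
    have h1 : ∏ j, x j ^ (z : Fin (m + 1) →₀ ℕ) j = 1 :=
      Finset.prod_eq_one fun j _ => pow_zero _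
    have h2 : ∀ s ∈ Finset.univ.erase z, ((Function.update c (vc0 m w) u ⟨Fin.last m, s⟩ : ℤ) : ℂ) *
        ∏ j, x j ^ (s : Fin (m + 1) →₀ ℕ) j = (c ⟨Fin.last m, s⟩ : ℂ) *
        ∏ j, x j ^ (s : Fin (m + 1) →₀ ℕ) j := by
      intro s hs
      rw [Function.update_of_ne]
      rw [← hzc]
      intro h
      exact (Finset.mem_erase.1 hs).1 (eq_of_heq (Sigma.mk.inj_iff.1 h).2)
    rw [Finset.sum_congr rfl h2, hzc, Function.update_self, h1, mul_one, mul_one]
    push_cast
    ring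
  · rw [if_neg hi, zero_add]
    refine Finset.sum_congr rfl fun s _ => ?_
    rw [Function.update_of_ne]
    intro h
    exact hi (congrArg Sigma.fst h)

theorem sum_le (c : VIdx m w → ℤ) {B : ℕ} (hc : c ∈ boxZ (VIdx m w) B) (i : Fin (m + 1)) :
    ∑ s ∈ (cP c i).support, nC (coeff s (cP c i)) ≤ Fintype.card (VIdx m w) * B := by
  classical
  have h1 : ∑ s ∈ (cP c i).support, nC (coeff s (cP c i)) ≤
      ∑ s : {s : Fin (m + 1) →₀ ℕ // s.degree ≤ w i}, nC (c ⟨i, s⟩ : ℂ) := by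
    have h2 : (cP c i).support ⊆ Finset.univ.image
        (fun s : {s : Fin (m + 1) →₀ ℕ // s.degree ≤ w i} => (s : Fin (m + 1) →₀ ℕ)) := by
      intro s hs
      rw [Finset.mem_image]
      refine ⟨⟨s, (le_totalDegree hs).trans (deg_cP c i)⟩, Finset.mem_univ _, rfl⟩
    refine (Finset.sum_le_sum_of_subset_of_nonneg h2 fun s _ _ => nC.nonneg _).trans ?_
    rw [Finset.sum_image fun a _ b _ h => Subtype.ext h]
    refine Finset.sum_le_sum fun s _ => ?_
    rw [cP, coeff_vP]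
  refine h1.trans ?_
  calc ∑ s : {s : Fin (m + 1) →₀ ℕ // s.degree ≤ w i}, nC (c ⟨i, s⟩ : ℂ)
      ≤ ∑ s : {s : Fin (m + 1) →₀ ℕ // s.degree ≤ w i}, (B : ℝ) := by
        refine Finset.sum_le_sum fun s _ => ?_
        have h2 := Finset.mem_Icc.1 (Fintype.mem_piFinset.1 hc ⟨i, s⟩)
        change ‖((c ⟨i, s⟩ : ℤ) : ℂ)‖ ≤ B
        rw [Complex.norm_intCast, abs_le]
        constructor
        · exact_mod_cast h2.1
        · exact_mod_cast h2.2
    _ = Fintype.card {s : Fin (m + 1) →₀ ℕ // s.degree ≤ w i} * (B : ℝ) := by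
        rw [Finset.sum_const, nsmul_eq_mul, Finset.card_univ]
    _ ≤ Fintype.card (VIdx m w) * B := by
        refine mul_le_mul_of_nonneg_right ?_ (Nat.cast_nonneg _)
        exact_mod_cast Fintype.card_le_of_injective
          (fun s : {s : Fin (m + 1) →₀ ℕ // s.degree ≤ w i} => (⟨i, s⟩ : VIdx m w))
          fun a b h => eq_of_heq (Sigma.mk.inj_iff.1 h).2

/-- The second point of the orbit is small for few values of the constant coefficient. -/
theorem slice_small (hd : 2 ≤ w (Fin.last m)) (c : VIdx m w → ℤ) (h0 : c (vsp m w) ≠ 0)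
    (α : Fin (m + 1) → ℂ) (ρ : ℝ) (hρ : 0 ≤ ρ) (S : Finset ℤ)
    (h : ∀ u ∈ S, ‖(pm (cP (Function.update c (vc0 m w) u)))^[2] α (Fin.last m)‖ <
      ‖(c (vsp m w) : ℂ)‖ * ρ ^ w (Fin.last m)) :
    (S.card : ℝ) ≤ w (Fin.last m) * (2 * ρ + 1) := by
  classical
  set d := w (Fin.last m) with hddef
  set y : Fin (m + 1) → ℂ := pm (cP c) α with hy
  set g : Polynomial ℂ := lineP y (cP c (Fin.last m)) + Polynomial.X with hg
  have hdeg : (lineP y (cP c (Fin.last m))).natDegree ≤ d := natDegree_lineP y (deg_cP c _)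
  have hco : g.coeff d = (c (vsp m w) : ℂ) := by
    rw [hg, Polynomial.coeff_add, coeff_lineP y (deg_cP c _), Polynomial.coeff_X,
      if_neg (by omega), add_zero, cP]
    exact coeff_vP (fun k : VIdx m w => (c k : ℂ)) (Fin.last m)
      ⟨Finsupp.single (Fin.last m) (w (Fin.last m)), by rw [Finsupp.degree_single]⟩
  have hc0 : (c (vsp m w) : ℂ) ≠ 0 := by exact_mod_cast h0
  have hgd : g.natDegree = d := by
    refine le_antisymm ?_ (Polynomial.le_natDegree_of_ne_zero (by rw [hco]; exact hc0))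
    refine (Polynomial.natDegree_add_le _ _).trans (max_le hdeg ?_)
    rw [Polynomial.natDegree_X]
    omega
  have hlc : g.leadingCoeff = (c (vsp m w) : ℂ) := by
    rw [Polynomial.leadingCoeff, hgd, hco]
  have hval : ∀ u : ℤ, g.eval ((u - c (vc0 m w) : ℤ) : ℂ) =
      (pm (cP (Function.update c (vc0 m w) u)))^[2] α (Fin.last m) := by
    intro u
    have h1 : pm (cP (Function.update c (vc0 m w) u)) α =
        fun j => (if j = Fin.last m then ((u - c (vc0 m w) : ℤ) : ℂ) else 0) + y j := by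
      funext j
      rw [pm, eval_update]
      rfl
    rw [hg, Polynomial.eval_add, Polynomial.eval_X, eval_lineP, Function.iterate_succ_apply,
      Function.iterate_one, h1]
    rw [pm, eval_update, if_pos rfl]
    ring
  have hinj : Function.Injective fun u : ℤ => u - c (vc0 m w) := fun a b h => by
    simpa using h
  rw [← Finset.card_image_of_injective S hinj]
  have := card_small g ρ hρ (S.image fun u => u - c (vc0 m w)) (by
    intro v hv
    obtain ⟨u, hu, rfl⟩ := Finset.mem_image.1 hv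
    rw [hval, hlc, hgd]
    exact h u hu)
  rwa [hgd] at this

/-- **Few bad arrays.** -/
theorem few_bad (hw : ∀ i : Fin m, 1 ≤ w i.castSucc)
    (hw' : ∀ i : Fin m, w i.castSucc < w (Fin.last m)) (hd : 2 ≤ w (Fin.last m))
    (h0 : 1 ≤ w (Fin.last m)) {ε1 ρ : ℝ} (hε1 : 0 < ε1) (hρ : 0 ≤ ρ) {B : ℕ} (hB : 1 ≤ B)
    (A : Finset (Fin (m + 1) → ℂ)) [DecidablePred fun c : VIdx m w → ℤ =>
      |(c (vsp m w) : ℝ)| < ε1 * B ∨ aeval c (GRZ hw h0) = 0 ∨
        ∃ α ∈ A, ‖(pm (cP c))^[2] α (Fin.last m)‖ <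
          ‖(c (vsp m w) : ℂ)‖ * ρ ^ w (Fin.last m)] :
    (((boxZ (VIdx m w) B).filter fun c => |(c (vsp m w) : ℝ)| < ε1 * B ∨
      aeval c (GRZ hw h0) = 0 ∨ ∃ α ∈ A, ‖(pm (cP c))^[2] α (Fin.last m)‖ <
          ‖(c (vsp m w) : ℂ)‖ * ρ ^ w (Fin.last m)).card : ℝ) * (2 * B + 1) ≤
      (2 * (ε1 * B) + 1 + (GRZ hw h0).totalDegree +
        A.card * (w (Fin.last m) * (2 * ρ + 1))) * (boxZ (VIdx m w) B).card := by
  classical
  set bx := boxZ (VIdx m w) B with hbx
  have hB0 : (0 : ℝ) < B := by exact_mod_cast hB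
  have hsub : (bx.filter fun c => |(c (vsp m w) : ℝ)| < ε1 * B ∨
      aeval c (GRZ hw h0) = 0 ∨ ∃ α ∈ A, ‖(pm (cP c))^[2] α (Fin.last m)‖ <
          ‖(c (vsp m w) : ℂ)‖ * ρ ^ w (Fin.last m)) ⊆
      (bx.filter fun c => |(c (vsp m w) : ℝ)| < ε1 * B) ∪
      ((bx.filter fun c => aeval c (GRZ hw h0) = 0) ∪
      A.biUnion fun α => bx.filter fun c => c (vsp m w) ≠ 0 ∧
        ‖(pm (cP c))^[2] α (Fin.last m)‖ < ‖(c (vsp m w) : ℂ)‖ * ρ ^ w (Fin.last m)) := by
    intro c hc
    obtain ⟨hc, h⟩ := Finset.mem_filter.1 hc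
    rw [Finset.mem_union, Finset.mem_union, Finset.mem_filter, Finset.mem_filter,
      Finset.mem_biUnion]
    rcases h with h | h | ⟨α, hα, h⟩
    · exact Or.inl ⟨hc, h⟩
    · exact Or.inr (Or.inl ⟨hc, h⟩)
    · by_cases h1 : c (vsp m w) = 0
      · left
        refine ⟨hc, ?_⟩
        rw [h1, Int.cast_zero, abs_zero]
        positivity
      · exact Or.inr (Or.inr ⟨α, hα, Finset.mem_filter.2 ⟨hc, h1, h⟩⟩)
  have h1 : ((bx.filter fun c => |(c (vsp m w) : ℝ)| < ε1 * B).card : ℝ) * (2 * B + 1) ≤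
      (2 * (ε1 * B) + 1) * bx.card := by
    refine slice (Finset.filter_subset _ _) (vsp m w) _ fun c _ => ?_
    refine card_near 0 (ε1 * B) (by positivity) _ fun u hu => ?_
    have h2 := (Finset.mem_filter.1 (Finset.mem_filter.1 hu).2).2
    rw [Function.update_self] at h2
    rw [sub_zero, Complex.norm_intCast]
    exact h2
  have h2 := zeros_le (GRZ hw h0) (GRZ_ne_zero hw h0 hw') B
  have h3 : ∀ α ∈ A, ((bx.filter fun c => c (vsp m w) ≠ 0 ∧
        ‖(pm (cP c))^[2] α (Fin.last m)‖ <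
          ‖(c (vsp m w) : ℂ)‖ * ρ ^ w (Fin.last m)).card : ℝ) * (2 * B + 1) ≤
      (w (Fin.last m) * (2 * ρ + 1)) * bx.card := by
    intro α _
    refine slice (Finset.filter_subset _ _) (vc0 m w) _ fun c _ => ?_
    have hup : ∀ u : ℤ, Function.update c (vc0 m w) u (vsp m w) = c (vsp m w) := fun u =>
      Function.update_of_ne (vsp_ne_vc0 (by omega)) _ _
    by_cases hc0 : c (vsp m w) = 0
    · rw [Finset.filter_eq_empty_iff.2, Finset.card_empty, Nat.cast_zero]
      · positivity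
      · intro u _ hu
        exact (Finset.mem_filter.1 hu).2.1 (by rw [hup, hc0])
    · refine slice_small hd c hc0 α ρ hρ _ fun u hu => ?_
      have h4 := (Finset.mem_filter.1 (Finset.mem_filter.1 hu).2).2.2
      rwa [hup] at h4
  have h4 : ((bx.filter fun c => |(c (vsp m w) : ℝ)| < ε1 * B ∨
      aeval c (GRZ hw h0) = 0 ∨ ∃ α ∈ A, ‖(pm (cP c))^[2] α (Fin.last m)‖ <
          ‖(c (vsp m w) : ℂ)‖ * ρ ^ w (Fin.last m)).card : ℝ) ≤
      ((bx.filter fun c => |(c (vsp m w) : ℝ)| < ε1 * B).card : ℝ) +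
      (((bx.filter fun c => aeval c (GRZ hw h0) = 0).card : ℝ) +
      ∑ α ∈ A, ((bx.filter fun c => c (vsp m w) ≠ 0 ∧
        ‖(pm (cP c))^[2] α (Fin.last m)‖ <
          ‖(c (vsp m w) : ℂ)‖ * ρ ^ w (Fin.last m)).card : ℝ)) := by
    have h5 := (Finset.card_le_card hsub).trans ((Finset.card_union_le _ _).trans
      (Nat.add_le_add_left ((Finset.card_union_le _ _).trans
        (Nat.add_le_add_left Finset.card_biUnion_le _)) _))
    exact_mod_cast h5
  have h5 : (∑ α ∈ A, ((bx.filter fun c => c (vsp m w) ≠ 0 ∧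
        ‖(pm (cP c))^[2] α (Fin.last m)‖ <
          ‖(c (vsp m w) : ℂ)‖ * ρ ^ w (Fin.last m)).card : ℝ)) * (2 * B + 1) ≤
      A.card * (w (Fin.last m) * (2 * ρ + 1)) * bx.card := by
    rw [Finset.sum_mul]
    refine (Finset.sum_le_sum h3).trans_eq ?_
    rw [Finset.sum_const, nsmul_eq_mul]
    ring
  have hB1 : (0 : ℝ) ≤ 2 * B + 1 := by positivity
  have h6 := mul_le_mul_of_nonneg_right h4 hB1
  refine h6.trans ?_
  rw [add_mul, add_mul]
  linarith

/-- **The good arrays.** -/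
theorem good (hw : ∀ i : Fin m, 1 ≤ w i.castSucc)
    (hw' : ∀ i : Fin m, w i.castSucc < w (Fin.last m)) (hd : 2 ≤ w (Fin.last m))
    (h0 : 1 ≤ w (Fin.last m)) {ε1 ρ lam R₀ A : ℝ} (hε1 : 0 < ε1) {B : ℕ}
    (hB : 1 ≤ B) (hlam : lam = 1 + 2 * (Fintype.card (VIdx m w) / ε1))
    (hR₀ : R₀ = lam + 4 + 2 * lam * (Fintype.card (VIdx m w) / ε1)) (hBR : R₀ ≤ B)
    (hA : 1 ≤ A) (hρ : lam * (Fintype.card (VIdx m w) * B) ^ w (Fin.last m) *
      A ^ (w (Fin.last m) * (w (Fin.last m) - 1)) ≤ ε1 * B * ρ ^ w (Fin.last m))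
    (hρ0 : 0 ≤ ρ)
    {c : VIdx m w → ℤ} (hc : c ∈ boxZ (VIdx m w) B)
    (h1 : ¬ |(c (vsp m w) : ℝ)| < ε1 * B) (h2 : aeval c (GRZ hw h0) ≠ 0)
    {α : Fin (m + 1) → ℂ} (hα : ∀ i, ‖α i‖ ≤ A)
    (h3 : ¬ ‖(pm (cP c))^[2] α (Fin.last m)‖ < ‖(c (vsp m w) : ℂ)‖ * ρ ^ w (Fin.last m))
    (F : MvPolynomial (Fin (m + 1)) ℂ) (hF : F ≠ 0) :
    {n | eval ((pm (cP c))^[n] α) F = 0}.Finite := by
  classical
  set d := w (Fin.last m) with hddef
  set n := Fintype.card (VIdx m w) with hn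
  have hn1 : 1 ≤ n := Fintype.card_pos_iff.2 ⟨vsp m w⟩
  have hn1' : (1 : ℝ) ≤ n := by exact_mod_cast hn1
  have hB1 : (1 : ℝ) ≤ B := by exact_mod_cast hB
  have hB0 : (0 : ℝ) < B := by linarith
  have hca : ca d (cP c) = (c (vsp m w) : ℂ) := by
    rw [ca, cP]
    exact coeff_vP (fun k : VIdx m w => (c k : ℂ)) (Fin.last m)
      ⟨Finsupp.single (Fin.last m) (w (Fin.last m)), by rw [Finsupp.degree_single]⟩
  have hv : nC (ca d (cP c)) = |(c (vsp m w) : ℝ)| := by
    rw [hca]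
    exact Complex.norm_intCast _
  have ha : ε1 * B ≤ |(c (vsp m w) : ℝ)| := not_lt.1 h1
  have ha0 : 0 < |(c (vsp m w) : ℝ)| := lt_of_lt_of_le (by positivity) ha
  have hc0 : c (vsp m w) ≠ 0 := by
    intro h
    rw [h, Int.cast_zero, abs_zero] at ha0
    exact lt_irrefl _ ha0
  have ha1 : 1 ≤ |(c (vsp m w) : ℝ)| := by
    have : 1 ≤ |c (vsp m w)| := Int.one_le_abs hc0
    exact_mod_cast this
  have htop : ca d (cP c) ≠ 0 := by
    rw [hca]
    exact_mod_cast hc0
  have hdom : VDom w (cP c) := by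
    refine vdom_field hw hw' h0 (deg_cP c) ?_
    have h4 : (fun k : VIdx m w => coeff (k.2 : Fin (m + 1) →₀ ℕ) (cP c k.1)) =
        fun k => (Int.castRingHom ℂ) (c k) := by
      funext k
      rw [cP, coeff_vP]
      rfl
    rw [h4, ← map_RZ, ← aeval_GRZ]
    rw [eq_intCast]
    exact_mod_cast h2
  obtain ⟨k, hk⟩ := term (fun i => ⟨hw i, hw' i⟩) h0 hdom hF
  have hdeg : ∀ i, (cP c i).totalDegree ≤ wd d (d - 1) i := fun i =>
    (deg_cP c i).trans (le_wd (fun i => by have := hw' i; omega) i)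
  have hCa : (n : ℝ) * B / |(c (vsp m w) : ℝ)| ≤ n / ε1 := by
    rw [div_le_div_iff₀ ha0 hε1]
    calc (n : ℝ) * B * ε1 = n * (ε1 * B) := by ring
      _ ≤ n * |(c (vsp m w) : ℝ)| := mul_le_mul_of_nonneg_left ha (by positivity)
  have hne : 0 ≤ (n : ℝ) / ε1 := by positivity
  have hlam1 : 1 ≤ lam := by rw [hlam]; linarith
  have hlam0 : 0 < lam := by linarith
  have hC1 : 1 ≤ (n : ℝ) * B := one_le_mul_of_one_le_of_one_le hn1' hB1
  have hC0 : 0 < (n : ℝ) * B := by linarith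
  refine esc_finite nC hd (Nat.sub_lt (by omega) one_pos) hdeg htop (C := n * B) (lam := lam)
    (R₀ := R₀) hC1 (fun i => sum_le c hc i) ?_ ?_ α ⟨2, ?_⟩ F k hk
  · rw [hv, hlam, mul_div_assoc]
    linarith
  · have h4 : 4 / |(c (vsp m w) : ℝ)| ≤ 4 := div_le_self (by norm_num) ha1
    have h5 : 2 * lam * (n * B) / |(c (vsp m w) : ℝ)| ≤ 2 * lam * (n / ε1) := by
      rw [mul_div_assoc]
      exact mul_le_mul_of_nonneg_left hCa (by positivity)
    rw [hv, hR₀]
    linarith
  · have h4 : ‖(c (vsp m w) : ℂ)‖ = |(c (vsp m w) : ℝ)| := Complex.norm_intCast _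
    rw [h4] at h3
    have h5 : lam * (n * B) ^ d * A ^ (d * (d - 1)) ≤ ‖(pm (cP c))^[2] α (Fin.last m)‖ :=
      (hρ.trans (mul_le_mul_of_nonneg_right ha (pow_nonneg hρ0 _))).trans (not_lt.1 h3)
    have hx1 : ∀ i, nC (pm (cP c) α i) ≤ n * B * A ^ d := by
      intro i
      refine (eval_le nC (deg_cP c i) α A hA hα).trans ?_
      refine mul_le_mul (sum_le c hc i) (pow_le_pow_right₀ hA ?_) (by positivity) hC0.le
      refine Fin.lastCases le_rfl (fun i => (hw' i).le) i
    have hR1 : 1 ≤ (n : ℝ) * B * A ^ d := one_le_mul_of_one_le_of_one_le hC1 (one_le_pow₀ hA)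
    constructor
    · refine le_trans ?_ h5
      have h6 : (n : ℝ) * B ≤ (n * B) ^ d := le_self_pow₀ hC1 (by omega)
      have h7 : (B : ℝ) ≤ n * B := le_mul_of_one_le_left hB0.le hn1'
      calc R₀ ≤ (n * B) ^ d := hBR.trans (h7.trans h6)
        _ ≤ lam * (n * B) ^ d := le_mul_of_one_le_left (by positivity) hlam1
        _ ≤ lam * (n * B) ^ d * A ^ (d * (d - 1)) :=
          le_mul_of_one_le_right (by positivity) (one_le_pow₀ hA)
    · intro i
      refine le_trans ?_ h5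
      have h6 : nC ((pm (cP c))^[2] α i.castSucc) ≤ n * B * (n * B * A ^ d) ^ (d - 1) := by
        rw [Function.iterate_succ_apply', Function.iterate_one, pm]
        refine (eval_le nC (deg_cP c _) (pm (cP c) α) _ hR1 hx1).trans ?_
        refine mul_le_mul (sum_le c hc _) (pow_le_pow_right₀ hR1 ?_) (by positivity) hC0.le
        have := hw' i
        omega
      have h7 : (n : ℝ) * B * (n * B * A ^ d) ^ (d - 1) = (n * B) ^ d * A ^ (d * (d - 1)) := by
        rw [mul_pow, ← mul_assoc, ← pow_succ', ← pow_mul]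
        congr 2
        omega
      rw [h7] at h6
      calc lam * nC ((pm (cP c))^[2] α i.castSucc)
          ≤ lam * ((n * B) ^ d * A ^ (d * (d - 1))) := mul_le_mul_of_nonneg_left h6 hlam0.le
        _ = lam * (n * B) ^ d * A ^ (d * (d - 1)) := by ring

end Pool.Agent.Helper52.DV
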