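import Pool.Agent.Helper52.DV.ZBox

/-!
# One hundred percent of the maps with integral coefficients: the theorem
-/

set_option autoImplicit false

namespace Pool.Agent.Helper52.DV

open MvPolynomial
open Pool.Agent.Helper86.MQ (pm)
open Pool.Agent.Helper26.DV

variable {m : ℕ} {w : Fin (m + 1) → ℕ}

/-- **Main theorem for arrays.** -/
theorem z_arrays (hw : ∀ i : Fin m, 1 ≤ w i.castSucc)
    (hw' : ∀ i : Fin m, w i.castSucc < w (Fin.last m)) (hd : 2 ≤ w (Fin.last m))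
    (ε : ℝ) (hε : 0 < ε) :
    ∃ κ : ℝ, 0 < κ ∧ ∃ K : ℕ, ∀ B : ℕ, K ≤ B → ∀ (S : Finset (Fin (m + 1) → ℂ)) (A : ℝ),
      1 ≤ A → (∀ α ∈ S, ∀ i, ‖α i‖ ≤ A) →
      (S.card : ℝ) ^ w (Fin.last m) * A ^ (w (Fin.last m) * (w (Fin.last m) - 1)) ≤ κ * B →
      ∃ T : Finset (VIdx m w → ℤ), T ⊆ boxZ (VIdx m w) B ∧
        (1 - ε) * (boxZ (VIdx m w) B).card ≤ T.card ∧
        ∀ c ∈ T, ∀ α ∈ S, ∀ F : MvPolynomial (Fin (m + 1)) ℂ, F ≠ 0 →
          {n | eval ((pm (cP c))^[n] α) F = 0}.Finite := by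
  classical
  have h0 : 1 ≤ w (Fin.last m) := by omega
  set d := w (Fin.last m) with hddef
  set n := Fintype.card (VIdx m w) with hn
  have hn1 : 1 ≤ n := Fintype.card_pos_iff.2 ⟨vsp m w⟩
  have hn1' : (1 : ℝ) ≤ n := by exact_mod_cast hn1
  have hd0 : (0 : ℝ) < d := by exact_mod_cast (by omega : 0 < d)
  have hd1 : (1 : ℝ) ≤ d := by exact_mod_cast h0
  set ε1 := ε / 8 with hε1
  have hε10 : 0 < ε1 := by positivity
  set lam : ℝ := 1 + 2 * (n / ε1) with hlam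
  have hlam0 : 0 < lam := by positivity
  set R₀ : ℝ := lam + 4 + 2 * lam * (n / ε1) with hR₀
  set D := (GRZ hw h0).totalDegree with hD
  set κ1 : ℝ := ε / (8 * d) with hκ1
  have hκ10 : 0 < κ1 := by positivity
  set κ2 : ℝ := ε1 * κ1 ^ d / (lam * n ^ d) with hκ2
  have hκ20 : 0 < κ2 := by positivity
  obtain ⟨K, hK⟩ := exists_nat_ge (max R₀ (max 1 ((2 + 2 * (D : ℝ)) / ε)))
  refine ⟨min κ1 κ2, lt_min hκ10 hκ20, K, fun B hB S A hA hS hSA => ?_⟩
  have hKB : (K : ℝ) ≤ B := by exact_mod_cast hB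
  have hBR : R₀ ≤ B := (le_max_left _ _).trans (hK.trans hKB)
  have hB1 : (1 : ℝ) ≤ B := (le_max_left _ _).trans ((le_max_right _ _).trans (hK.trans hKB))
  have hB1' : 1 ≤ B := by exact_mod_cast hB1
  have hBD : (2 + 2 * (D : ℝ)) / ε ≤ B :=
    (le_max_right _ _).trans ((le_max_right _ _).trans (hK.trans hKB))
  rw [div_le_iff₀ hε] at hBD
  rcases S.eq_empty_or_nonempty with rfl | hSne
  · refine ⟨boxZ (VIdx m w) B, subset_rfl, ?_, fun c _ α hα => absurd hα (Finset.notMem_empty _)⟩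
    have h1 : (0 : ℝ) ≤ (boxZ (VIdx m w) B).card := Nat.cast_nonneg _
    nlinarith
  set q := S.card with hq
  have hq1 : 1 ≤ q := Finset.card_pos.2 hSne
  have hq1' : (1 : ℝ) ≤ q := by exact_mod_cast hq1
  have hq0 : (0 : ℝ) < q := by linarith
  set ρ : ℝ := κ1 * B / q with hρ
  have hρ0 : 0 ≤ ρ := by positivity
  have hqA : (q : ℝ) ≤ q ^ d * A ^ (d * (d - 1)) := by
    calc (q : ℝ) ≤ q ^ d := le_self_pow₀ hq1' (by omega)
      _ ≤ q ^ d * A ^ (d * (d - 1)) := le_mul_of_one_le_right (by positivity) (one_le_pow₀ hA)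
  have hqB : (q : ℝ) ≤ κ1 * B :=
    hqA.trans (hSA.trans (mul_le_mul_of_nonneg_right (min_le_left _ _) (by positivity)))
  have hS2 : (q : ℝ) ^ d * A ^ (d * (d - 1)) ≤ κ2 * B :=
    hSA.trans (mul_le_mul_of_nonneg_right (min_le_right _ _) (by positivity))
  have hρc : lam * (n * B) ^ d * A ^ (d * (d - 1)) ≤ ε1 * B * ρ ^ d := by
    have h1 : ρ ^ d = κ1 ^ d * (B : ℝ) ^ d / q ^ d := by rw [hρ, div_pow, mul_pow]
    rw [h1, ← mul_div_assoc, le_div_iff₀ (by positivity)]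
    calc lam * (n * B) ^ d * A ^ (d * (d - 1)) * q ^ d
        = lam * n ^ d * B ^ d * (q ^ d * A ^ (d * (d - 1))) := by rw [mul_pow]; ring
      _ ≤ lam * n ^ d * B ^ d * (κ2 * B) := mul_le_mul_of_nonneg_left hS2 (by positivity)
      _ = ε1 * B * (κ1 ^ d * B ^ d) := by
          rw [hκ2]
          field_simp
  set bad := (boxZ (VIdx m w) B).filter fun c => |(c (vsp m w) : ℝ)| < ε1 * B ∨
      aeval c (GRZ hw h0) = 0 ∨ ∃ α ∈ S, ‖(pm (cP c))^[2] α (Fin.last m)‖ <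
          ‖(c (vsp m w) : ℂ)‖ * ρ ^ w (Fin.last m) with hbad
  have hfew := few_bad hw hw' hd h0 hε10 hρ0 hB1' S
  rw [← hbad] at hfew
  refine ⟨boxZ (VIdx m w) B \ bad, Finset.sdiff_subset, ?_, ?_⟩
  · have h1 : ((boxZ (VIdx m w) B \ bad).card : ℝ) = (boxZ (VIdx m w) B).card - bad.card := by
      rw [Finset.card_sdiff_of_subset (Finset.filter_subset _ _),
        Nat.cast_sub (Finset.card_le_card (Finset.filter_subset _ _))]
    have h2 : 2 * (ε1 * B) + 1 + (D : ℝ) + q * (d * (2 * ρ + 1)) ≤ ε * (2 * B + 1) := by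
      have h3 : (q : ℝ) * (d * (2 * ρ + 1)) = ε / 4 * B + q * d := by
        rw [hρ, hκ1]
        field_simp
        ring
      have h4 : (q : ℝ) * d ≤ ε / 8 * B := by
        calc (q : ℝ) * d ≤ κ1 * B * d := mul_le_mul_of_nonneg_right hqB hd0.le
          _ = ε / 8 * B := by
              rw [hκ1]
              field_simp
      have hεB : 0 ≤ ε * B := by positivity
      rw [h3, hε1]
      nlinarith
    have h3 : (bad.card : ℝ) ≤ ε * (boxZ (VIdx m w) B).card := by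
      have h4 : (0 : ℝ) < 2 * B + 1 := by positivity
      have h5 := hfew.trans (mul_le_mul_of_nonneg_right h2 (Nat.cast_nonneg _))
      have h6 : (bad.card : ℝ) * (2 * B + 1) ≤ ε * (boxZ (VIdx m w) B).card * (2 * B + 1) := by
        refine h5.trans_eq ?_
        ring
      exact le_of_mul_le_mul_right h6 h4
    rw [h1]
    linarith
  · intro c hc α hα F hF
    rw [Finset.mem_sdiff, hbad, Finset.mem_filter, not_and_or] at hc
    obtain ⟨hc, h1⟩ := hc
    have h2 := h1.resolve_left fun h => h hc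
    push Not at h2
    exact good hw hw' hd h0 hε10 hB1' hlam hR₀ hBR hA hρc hρ0 hc (not_lt.2 h2.1) h2.2.1
      (hS α hα) (not_lt.2 (h2.2.2 α hα)) F hF

/-- the polynomial self-maps of the affine space over `ℤ` with the degrees bounded by `w` and the
coefficients bounded by `B` -/
def zbox (m : ℕ) (w : Fin (m + 1) → ℕ) (B : ℕ) : Set (Fin (m + 1) → MvPolynomial (Fin (m + 1)) ℤ) :=
  {Φ | (∀ i, (Φ i).totalDegree ≤ w i) ∧ ∀ i s, |coeff s (Φ i)| ≤ (B : ℤ)}

theorem vP_injective {R : Type*} [CommRing R] :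
    Function.Injective (vP : (VIdx m w → R) → Fin (m + 1) → MvPolynomial (Fin (m + 1)) R) := by
  intro c c' h
  funext k
  have h1 := congrArg (coeff (k.2 : Fin (m + 1) →₀ ℕ)) (congrFun h k.1)
  rwa [coeff_vP c k.1 k.2, coeff_vP c' k.1 k.2] at h1

theorem zbox_eq (B : ℕ) :
    zbox m w B = vP '' (boxZ (VIdx m w) B : Set (VIdx m w → ℤ)) := by
  classical
  ext Φ
  constructor
  · rintro ⟨h1, h2⟩
    refine ⟨fun k => coeff (k.2 : Fin (m + 1) →₀ ℕ) (Φ k.1), ?_, vP_coeff Φ fun i s hs => ?_⟩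
    · rw [Finset.mem_coe, Fintype.mem_piFinset]
      intro k
      rw [Finset.mem_Icc, ← abs_le]
      exact h2 _ _
    · by_contra h3
      exact hs ((le_totalDegree (mem_support_iff.2 h3)).trans (h1 i))
  · rintro ⟨c, hc, rfl⟩
    rw [Finset.mem_coe, Fintype.mem_piFinset] at hc
    refine ⟨fun i => ?_, fun i s => ?_⟩
    · rw [vP]
      refine totalDegree_finsetSum_le fun s _ => ?_
      refine (totalDegree_monomial_le _ _).trans ?_
      exact s.2
    · by_cases hs : s.degree ≤ w i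
      · have h1 := coeff_vP c i ⟨s, hs⟩
        change coeff s (vP c i) = _ at h1
        rw [h1, abs_le, ← Finset.mem_Icc]
        exact hc _
      · rw [coeff_vP_of_gt c i hs, abs_zero]
        exact Int.natCast_nonneg _

theorem map_vP (c : VIdx m w → ℤ) :
    (fun i => MvPolynomial.map (Int.castRingHom ℂ) (vP c i)) = cP c := by
  funext i
  rw [cP, vP, vP, map_sum]
  refine Finset.sum_congr rfl fun s _ => ?_
  rw [map_monomial]
  rfl

/-- **Main theorem.** -/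
theorem z_main (hw : ∀ i : Fin m, 1 ≤ w i.castSucc)
    (hw' : ∀ i : Fin m, w i.castSucc < w (Fin.last m)) (hd : 2 ≤ w (Fin.last m))
    (ε : ℝ) (hε : 0 < ε) :
    ∃ κ : ℝ, 0 < κ ∧ ∃ K : ℕ, ∀ B : ℕ, K ≤ B → (zbox m w B).Finite ∧
      ∀ (S : Finset (Fin (m + 1) → ℂ)) (A : ℝ), 1 ≤ A → (∀ α ∈ S, ∀ i, ‖α i‖ ≤ A) →
      (S.card : ℝ) ^ w (Fin.last m) * A ^ (w (Fin.last m) * (w (Fin.last m) - 1)) ≤ κ * B →
      (1 - ε) * ((zbox m w B).ncard : ℝ) ≤
        (({Φ ∈ zbox m w B | ∀ α ∈ S, ∀ F : MvPolynomial (Fin (m + 1)) ℂ, F ≠ 0 →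
          {n | eval ((pm fun i => MvPolynomial.map (Int.castRingHom ℂ) (Φ i))^[n] α) F =
            0}.Finite}).ncard : ℝ) := by
  classical
  obtain ⟨κ, hκ, K, hK⟩ := z_arrays hw hw' hd ε hε
  refine ⟨κ, hκ, K, fun B hB => ?_⟩
  have hfin : (zbox m w B).Finite := by
    rw [zbox_eq]
    exact (Finset.finite_toSet _).image _
  refine ⟨hfin, fun S A hA hS hSA => ?_⟩
  obtain ⟨T, hT, hcard, hgood⟩ := hK B hB S A hA hS hSA
  have h1 : (zbox m w B).ncard = (boxZ (VIdx m w) B).card := by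
    rw [zbox_eq, Set.ncard_image_of_injective _ vP_injective, Set.ncard_coe_finset]
  rw [h1]
  refine hcard.trans ?_
  have h2 : (vP '' (T : Set (VIdx m w → ℤ))).ncard = T.card := by
    rw [Set.ncard_image_of_injective _ vP_injective, Set.ncard_coe_finset]
  rw [← h2]
  refine Nat.cast_le.2 (Set.ncard_le_ncard ?_ (hfin.subset fun Φ hΦ => hΦ.1))
  rintro Φ ⟨c, hc, rfl⟩
  refine ⟨?_, fun α hα F hF => ?_⟩
  · rw [zbox_eq]
    exact ⟨c, hT hc, rfl⟩
  · rw [map_vP]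
    exact hgood c hc α hα F hF

end Pool.Agent.Helper52.DV
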